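import Pool.Agent.Run7.h767.ST.Law

/-! # The limit formula for homomorphisms of the ideals to a finite group -/

set_option autoImplicit false
set_option linter.unusedSectionVars false

open NumberField Complex Filter Topology Asymptotics

namespace Pool.Agent.Run7.h767.ST

open Pool.Agent.Y773 (TPos LI VM)
open Pool.Agent.Y772.DK (ee ee_zero ee_le LI_eq_exp LA nr nr_summable term_le term_summable
  VM_nonneg VM_le)
open Pool.Agent.Run7.h453.CX (cser rterm gen_law rterm_summable)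

variable {K : Type} [Field K] [NumberField K]

/-- `1 / k` at `𝔭 ^ k`, `0` at the other ideals -/
noncomputable def c0 (𝔞 : Ideal (𝓞 K)) : ℂ := ((VM 𝔞 / lg 𝔞 : ℝ) : ℂ)

lemma VM_zero : VM (0 : Ideal (𝓞 K)) = 0 := by
  unfold VM
  rw [if_neg]
  rintro ⟨p, k, hp, hk, h⟩
  exact (pow_ne_zero k hp.ne_zero) h

lemma c0_zero : c0 (0 : Ideal (𝓞 K)) = 0 := by
  unfold c0
  rw [VM_zero, zero_div, Complex.ofReal_zero]

lemma c0_le (𝔞 : Ideal (𝓞 K)) : ‖c0 𝔞‖ ≤ 1 := by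
  by_cases h : 𝔞 = 0
  · rw [h, c0_zero, norm_zero]
    exact zero_le_one
  unfold c0
  rw [norm_real, Real.norm_of_nonneg (div_nonneg (VM_nonneg _) (lg_nonneg _))]
  exact div_le_one_of_le₀ (VM_le h) (lg_nonneg _)

lemma ee_eq (χ : Ideal (𝓞 K) →*₀ ℂ) (𝔞 : Ideal (𝓞 K)) : ee χ 𝔞 = c0 𝔞 * χ 𝔞 := rfl

lemma c0_summable {σ : ℝ} (hσ : 1 < σ) :
    Summable fun 𝔞 : Ideal (𝓞 K) => ‖c0 𝔞‖ * Real.exp (-(σ * lg 𝔞)) := by
  have h1 := term_summable (a := c0 (K := K)) c0_zero c0_le (s := (σ : ℂ))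
    (by rw [Complex.ofReal_re]; exact hσ)
  refine h1.congr fun 𝔞 => ?_
  by_cases h : 𝔞 = 0
  · rw [h, c0_zero, zero_mul, norm_zero, zero_mul]
  · rw [norm_mul, cpow_eq h, Complex.norm_exp]
    congr 2
    simp

/-- the term of the sum at `𝔞` -/
noncomputable def tm (γ T : ℝ) (𝔞 : Ideal (𝓞 K)) : ℂ := rterm lg (c0 (K := K)) γ T 𝔞

lemma tm_summable (γ : ℝ) {T : ℝ} (hT : 0 < T) :
    Summable fun 𝔞 : Ideal (𝓞 K) => ‖tm γ T 𝔞‖ :=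
  rterm_summable lg_nonneg (by norm_num : (0 : ℝ) < 2) (c0_summable (by norm_num)) γ hT

lemma rterm_eq (χ : Ideal (𝓞 K) →*₀ ℂ) (γ T : ℝ) (𝔞 : Ideal (𝓞 K)) :
    rterm lg (ee χ) γ T 𝔞 = χ 𝔞 * tm γ T 𝔞 := by
  unfold tm rterm
  rw [ee_eq]
  ring

section

variable {G : Type} [Group G] [Finite G] {𝔣 : Ideal (𝓞 K)} {P : Set (K →+* ℝ)}

/-- `A` is a homomorphism from the ray class group modulo `𝔣 P` to `G` -/
structure IsArt (𝔣 : Ideal (𝓞 K)) (P : Set (K →+* ℝ)) (A : Ideal (𝓞 K) → G) : Prop where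
  mul : ∀ 𝔞 𝔟, IsCoprime 𝔞 𝔣 → IsCoprime 𝔟 𝔣 → A (𝔞 * 𝔟) = A 𝔞 * A 𝔟
  ray : ∀ x : 𝓞 K, x - 1 ∈ 𝔣 → PPos P x → A (Ideal.span {x}) = 1

lemma IsArt.one {A : Ideal (𝓞 K) → G} (hA : IsArt 𝔣 P A) : A 1 = 1 := by
  have h := hA.mul 1 1 isCoprime_one_left isCoprime_one_left
  rw [mul_one] at h
  exact left_eq_mul.1 h

/-- the character of the ideals -/
noncomputable def chi (htop : 𝔣 ≠ ⊤) {A : Ideal (𝓞 K) → G} (hA : IsArt 𝔣 P A) (ψ : G →* ℂˣ) :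
    Ideal (𝓞 K) →*₀ ℂ :=
  ofM' htop
    { toFun := fun 𝔞 : Mq 𝔣 => ψ (A 𝔞)
      map_one' := by
        change ψ (A 1) = 1
        rw [hA.one, map_one]
      map_mul' := fun 𝔞 𝔟 => by
        change ψ (A (𝔞 * 𝔟)) = _
        rw [hA.mul _ _ (Mq_cop 𝔞) (Mq_cop 𝔟), map_mul] }

lemma chi_apply (htop : 𝔣 ≠ ⊤) {A : Ideal (𝓞 K) → G} (hA : IsArt 𝔣 P A) (ψ : G →* ℂˣ)
    {𝔞 : Ideal (𝓞 K)} (h : IsCoprime 𝔞 𝔣) : chi htop hA ψ 𝔞 = ((ψ (A 𝔞) : ℂˣ) : ℂ) :=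
  ofM'_pos htop _ h

lemma chi_zero (htop : 𝔣 ≠ ⊤) {A : Ideal (𝓞 K) → G} (hA : IsArt 𝔣 P A) (ψ : G →* ℂˣ)
    {𝔞 : Ideal (𝓞 K)} (h : ¬ IsCoprime 𝔞 𝔣) : chi htop hA ψ 𝔞 = 0 := by
  by_contra h2
  exact h ((ofM'_supp htop _ 𝔞).1 h2)

lemma chi_isRay (htop : 𝔣 ≠ ⊤) {A : Ideal (𝓞 K) → G} (hA : IsArt 𝔣 P A) (ψ : G →* ℂˣ) :
    IsRayChar 𝔣 P (chi htop hA ψ) := by
  refine ⟨fun 𝔞 => ofM'_supp htop _ 𝔞, fun x hx hp => ?_⟩
  rw [chi_apply htop hA ψ (cop_one hx), hA.ray x hx hp, map_one, Units.val_one]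

/-- the ideals prime to `𝔣` with `A 𝔞 = ρ` -/
def Fib (𝔣 : Ideal (𝓞 K)) (A : Ideal (𝓞 K) → G) (ρ : G) : Type :=
  {𝔞 : Ideal (𝓞 K) // IsCoprime 𝔞 𝔣 ∧ A 𝔞 = ρ}

/-- the partial zeta function -/
noncomputable def pzG (𝔣 : Ideal (𝓞 K)) (A : Ideal (𝓞 K) → G) (ρ : G) (s : ℂ) : ℂ :=
  ∑' 𝔞 : {𝔞 : Ideal (𝓞 K) // IsCoprime 𝔞 𝔣 ∧ A 𝔞 = ρ}, ((Ideal.absNorm 𝔞.1 : ℕ) : ℂ) ^ (-s)

/-- the sum over the ideals with `A 𝔞 = ρ` -/
noncomputable def SG (𝔣 : Ideal (𝓞 K)) (A : Ideal (𝓞 K) → G) (ρ : G) (γ T : ℝ) : ℂ :=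
  ∑' 𝔞 : {𝔞 : Ideal (𝓞 K) // IsCoprime 𝔞 𝔣 ∧ A 𝔞 = ρ}, tm γ T 𝔞.1

/-- the approximation of the derivative at `0` -/
noncomputable def apG (𝔣 : Ideal (𝓞 K)) (A : Ideal (𝓞 K) → G) (ρ : G) (γ T : ℝ) : ℂ :=
  T * exp (-Pool.Agent.W187.UR.Lam γ) * ((Nat.card G : ℂ)⁻¹ *
    ∑ᶠ ψ : G →* ℂˣ, (starRingEnd ℂ) ((ψ ρ : ℂˣ) : ℂ) *
      exp (∑ᶠ τ : G, ((ψ τ : ℂˣ) : ℂ) * SG 𝔣 A τ γ T))

lemma finite_dual' (hcomm : ∀ a b : G, a * b = b * a) : Finite (G →* ℂˣ) := by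
  let _ : CommGroup G := { (inferInstance : Group G) with mul_comm := hcomm }
  exact finite_dual G

open Classical in
lemma orthG (hcomm : ∀ a b : G, a * b = b * a) [Fintype (G →* ℂˣ)] (ρ τ : G) :
    ∑ ψ : G →* ℂˣ, (starRingEnd ℂ) ((ψ ρ : ℂˣ) : ℂ) * ((ψ τ : ℂˣ) : ℂ) =
      if τ = ρ then (Nat.card G : ℂ) else 0 := by
  let _ : CommGroup G := { (inferInstance : Group G) with mul_comm := hcomm }
  have h1 : ∀ ψ : G →* ℂˣ, (starRingEnd ℂ) ((ψ ρ : ℂˣ) : ℂ) * ((ψ τ : ℂˣ) : ℂ) =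
      ((ψ (τ * ρ⁻¹) : ℂˣ) : ℂ) := by
    intro ψ
    have h2 : ‖((ψ ρ : ℂˣ) : ℂ)‖ = 1 := norm_one_of_finite ψ ρ
    rw [map_mul, map_inv, Units.val_mul, Units.val_inv_eq_inv_val, mul_comm, Complex.inv_def,
      Complex.normSq_eq_norm_sq, h2]
    simp
  rw [Finset.sum_congr rfl fun ψ _ => h1 ψ]
  have h3 := sum_dual G (τ * ρ⁻¹)
  rw [h3]
  simp only [mul_inv_eq_one]

/-- sums over the ideals, sorted by the values of `A` -/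
lemma tsum_chi [Fintype G] (htop : 𝔣 ≠ ⊤) {A : Ideal (𝓞 K) → G} (hA : IsArt 𝔣 P A)
    (ψ : G →* ℂˣ) {f : Ideal (𝓞 K) → ℂ} (hf : Summable fun 𝔞 => ‖f 𝔞‖) :
    ∑' 𝔞, chi htop hA ψ 𝔞 * f 𝔞 = ∑ τ : G, ((ψ τ : ℂˣ) : ℂ) *
      ∑' 𝔞 : {𝔞 : Ideal (𝓞 K) // IsCoprime 𝔞 𝔣 ∧ A 𝔞 = τ}, f 𝔞.1 := by
  classical
  have h1 : ∀ τ : G, ∑' 𝔞 : {𝔞 : Ideal (𝓞 K) // IsCoprime 𝔞 𝔣 ∧ A 𝔞 = τ}, f 𝔞.1 =
      ∑' 𝔞, Set.indicator {𝔞 : Ideal (𝓞 K) | IsCoprime 𝔞 𝔣 ∧ A 𝔞 = τ} f 𝔞 := fun τ =>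
    tsum_subtype {𝔞 : Ideal (𝓞 K) | IsCoprime 𝔞 𝔣 ∧ A 𝔞 = τ} f
  simp_rw [h1, ← tsum_mul_left]
  rw [← Summable.tsum_finsetSum]
  · refine tsum_congr fun 𝔞 => ?_
    by_cases h : IsCoprime 𝔞 𝔣
    · rw [chi_apply htop hA ψ h, Finset.sum_eq_single (A 𝔞)]
      · rw [Set.indicator_of_mem]
        exact ⟨h, rfl⟩
      · intro τ _ hτ
        rw [Set.indicator_of_notMem, mul_zero]
        exact fun h2 => hτ h2.2.symm
      · intro h2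
        exact absurd (Finset.mem_univ _) h2
    · rw [chi_zero htop hA ψ h, zero_mul, Finset.sum_eq_zero]
      intro τ _
      rw [Set.indicator_of_notMem, mul_zero]
      exact fun h2 => h h2.1
  · intro τ _
    exact (hf.of_norm.indicator _).mul_left _

lemma mero_sum {ι : Type} (t : Finset ι) {f : ι → ℂ → ℂ} {s : ℂ}
    (hf : ∀ i, MeromorphicAt (f i) s) : MeromorphicAt (fun z => ∑ i ∈ t, f i z) s := by
  classical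
  induction t using Finset.induction_on with
  | empty =>
    simp only [Finset.sum_empty]
    exact analyticAt_const.meromorphicAt
  | insert a t ha ih =>
    simp only [Finset.sum_insert ha]
    exact (hf a).fun_add ih

/-- two meromorphic functions which agree on a half-plane have the same germ at `0` -/
lemma mero_uniq {f g : ℂ → ℂ} (hf : ∀ s, MeromorphicAt f s) (hg : ∀ s, MeromorphicAt g s)
    (hf0 : AnalyticAt ℂ f 0) (hg0 : AnalyticAt ℂ g 0) (h : ∀ s : ℂ, 1 < s.re → f s = g s) :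
    f =ᶠ[𝓝 0] g := by
  have hd : Meromorphic (fun s => f s - g s) := fun s => (hf s).fun_sub (hg s)
  have h2 : meromorphicOrderAt (fun s => f s - g s) 2 = ⊤ := by
    rw [meromorphicOrderAt_eq_top_iff]
    have hop : IsOpen {s : ℂ | 1 < s.re} := isOpen_lt continuous_const continuous_re
    have h3 : ∀ᶠ z in 𝓝 (2 : ℂ), f z - g z = 0 := by
      filter_upwards [hop.mem_nhds (show (1 : ℝ) < (2 : ℂ).re by norm_num)] with z hz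
      rw [h z hz, sub_self]
    exact h3.filter_mono nhdsWithin_le_nhds
  have h4 : meromorphicOrderAt (fun s => f s - g s) 0 = ⊤ := by
    by_contra h5
    exact (hd.exists_meromorphicOrderAt_ne_top_iff_forall.1 ⟨0, h5⟩) 2 h2
  rw [meromorphicOrderAt_eq_top_iff] at h4
  have h6 : ∃ᶠ z in 𝓝[≠] (0 : ℂ), f z = g z := by
    refine Filter.Eventually.frequently ?_
    filter_upwards [h4] with z hz
    exact sub_eq_zero.1 hz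
  exact (hf0.frequently_eq_iff_eventually_eq hg0).1 h6

theorem main_G (hK : (∃ w : InfinitePlace K, w.IsComplex) ∨ P ≠ Set.univ) (hbot : 𝔣 ≠ ⊥)
    (htop : 𝔣 ≠ ⊤) (hcomm : ∀ a b : G, a * b = b * a) {A : Ideal (𝓞 K) → G}
    (hA : IsArt 𝔣 P A) (ρ : G) :
    ∃ Z : ℂ → ℂ, (∀ s : ℂ, s ≠ 1 → AnalyticAt ℂ Z s) ∧ (∀ s : ℂ, MeromorphicAt Z s) ∧
      (∀ s : ℂ, 1 < s.re → Z s = pzG 𝔣 A ρ s) ∧ Z 0 = 0 ∧
      ∀ γ : ℝ, Real.pi / 2 < γ →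
        (fun T : ℝ => apG 𝔣 A ρ γ T - deriv Z 0) =O[atTop] fun T : ℝ => 1 / T := by
  classical
  have := finite_dual' hcomm
  have := Fintype.ofFinite (G →* ℂˣ)
  have := Fintype.ofFinite G
  have hG : (Nat.card G : ℂ) ≠ 0 := by exact_mod_cast Nat.card_pos.ne'
  choose Φ h1 h2 h3 h4 h5 using fun ψ : G →* ℂˣ =>
    law_char hK hbot htop (chi_isRay htop hA ψ)
  refine ⟨fun s => (Nat.card G : ℂ)⁻¹ * ∑ ψ : G →* ℂˣ,
    (starRingEnd ℂ) ((ψ ρ : ℂˣ) : ℂ) * Φ ψ s, fun s hs => ?_, fun s => ?_, fun s hs => ?_, ?_,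
    fun γ hγ => ?_⟩
  · refine analyticAt_const.mul (Finset.analyticAt_fun_sum _ fun ψ _ => ?_)
    exact analyticAt_const.mul (h1 ψ s hs)
  · exact (analyticAt_const.meromorphicAt).fun_mul (mero_sum _ fun ψ =>
      (analyticAt_const.meromorphicAt).fun_mul (h2 ψ s))
  · show (Nat.card G : ℂ)⁻¹ * ∑ ψ : G →* ℂˣ, (starRingEnd ℂ) ((ψ ρ : ℂˣ) : ℂ) * Φ ψ s = _
    have hf : Summable fun 𝔞 : Ideal (𝓞 K) =>
        ‖(if 𝔞 = 0 then 0 else ((Ideal.absNorm 𝔞 : ℕ) : ℂ) ^ (-s))‖ := by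
      have h6 := term_summable (a := fun 𝔞 : Ideal (𝓞 K) => if 𝔞 = 0 then (0 : ℂ) else 1)
        (by simp) (fun 𝔞 => by split_ifs <;> simp) hs
      refine h6.congr fun 𝔞 => ?_
      congr 1
      split_ifs <;> simp
    have h7 : ∀ ψ : G →* ℂˣ, Φ ψ s = ∑ τ : G, ((ψ τ : ℂˣ) : ℂ) * pzG 𝔣 A τ s := by
      intro ψ
      rw [h3 ψ s hs]
      have h8 := tsum_chi htop hA ψ hf
      have h9 : LI (chi htop hA ψ) s = ∑' 𝔞, chi htop hA ψ 𝔞 *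
          (if 𝔞 = 0 then 0 else ((Ideal.absNorm 𝔞 : ℕ) : ℂ) ^ (-s)) := by
        unfold LI
        refine tsum_congr fun 𝔞 => ?_
        split_ifs with h
        · rw [h, map_zero, zero_mul, zero_mul]
        · rfl
      rw [h9, h8]
      refine Finset.sum_congr rfl fun τ _ => ?_
      congr 1
      unfold pzG
      refine tsum_congr fun 𝔞 => ?_
      rw [if_neg]
      intro h
      have h10 := 𝔞.2.1
      rw [h, Ideal.zero_eq_bot, Ideal.isCoprime_iff_sup_eq, bot_sup_eq] at h10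
      exact htop h10
    simp_rw [h7, Finset.mul_sum]
    rw [Finset.sum_comm]
    have h8 : ∀ τ : G, ∑ ψ : G →* ℂˣ, (Nat.card G : ℂ)⁻¹ * ((starRingEnd ℂ) ((ψ ρ : ℂˣ) : ℂ) *
        (((ψ τ : ℂˣ) : ℂ) * pzG 𝔣 A τ s)) =
        (Nat.card G : ℂ)⁻¹ * pzG 𝔣 A τ s * (if τ = ρ then (Nat.card G : ℂ) else 0) := by
      intro τ
      rw [← orthG hcomm ρ τ, Finset.mul_sum]
      exact Finset.sum_congr rfl fun ψ _ => by ring
    rw [Finset.sum_congr rfl fun τ _ => h8 τ, Finset.sum_eq_single ρ]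
    · rw [if_pos rfl]
      field_simp
    · intro τ _ hτ
      rw [if_neg hτ, mul_zero]
    · intro h
      exact absurd (Finset.mem_univ _) h
  · show (Nat.card G : ℂ)⁻¹ * ∑ ψ : G →* ℂˣ, (starRingEnd ℂ) ((ψ ρ : ℂˣ) : ℂ) * Φ ψ 0 = 0
    rw [Finset.sum_eq_zero fun ψ _ => by rw [h4 ψ, mul_zero], mul_zero]
  · have hd : deriv (fun s => (Nat.card G : ℂ)⁻¹ * ∑ ψ : G →* ℂˣ,
        (starRingEnd ℂ) ((ψ ρ : ℂˣ) : ℂ) * Φ ψ s) 0 =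
        (Nat.card G : ℂ)⁻¹ * ∑ ψ : G →* ℂˣ,
          (starRingEnd ℂ) ((ψ ρ : ℂˣ) : ℂ) * deriv (Φ ψ) 0 := by
      have h6 : HasDerivAt (fun s => (Nat.card G : ℂ)⁻¹ * ∑ ψ : G →* ℂˣ,
          (starRingEnd ℂ) ((ψ ρ : ℂˣ) : ℂ) * Φ ψ s)
          ((Nat.card G : ℂ)⁻¹ * ∑ ψ : G →* ℂˣ,
            (starRingEnd ℂ) ((ψ ρ : ℂˣ) : ℂ) * deriv (Φ ψ) 0) 0 := by
        refine HasDerivAt.const_mul _ (HasDerivAt.fun_sum fun ψ _ => ?_)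
        exact ((h1 ψ 0 (by norm_num)).differentiableAt.hasDerivAt).const_mul _
      exact h6.deriv
    rw [hd]
    have hs : ∀ (ψ : G →* ℂˣ) (T : ℝ), 0 < T →
        SX (chi htop hA ψ) γ T = ∑ᶠ τ : G, ((ψ τ : ℂˣ) : ℂ) * SG 𝔣 A τ γ T := by
      intro ψ T hT
      rw [finsum_eq_sum_of_fintype]
      unfold SX
      rw [tsum_congr fun 𝔞 => rterm_eq (chi htop hA ψ) γ T 𝔞,
        tsum_chi htop hA ψ (tm_summable γ hT)]
      rfl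
    have h7 : (fun T : ℝ => apG 𝔣 A ρ γ T - (Nat.card G : ℂ)⁻¹ * ∑ ψ : G →* ℂˣ,
        (starRingEnd ℂ) ((ψ ρ : ℂˣ) : ℂ) * deriv (Φ ψ) 0) =ᶠ[atTop]
        fun T : ℝ => ∑ ψ : G →* ℂˣ, ((Nat.card G : ℂ)⁻¹ * (starRingEnd ℂ) ((ψ ρ : ℂˣ) : ℂ)) *
          (T * exp (-Pool.Agent.W187.UR.Lam γ) * exp (SX (chi htop hA ψ) γ T) -
            deriv (Φ ψ) 0) := by
      filter_upwards [eventually_gt_atTop 0] with T hT
      unfold apG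
      rw [finsum_eq_sum_of_fintype, Finset.mul_sum, Finset.mul_sum,
        Finset.mul_sum, ← Finset.sum_sub_distrib]
      refine Finset.sum_congr rfl fun ψ _ => ?_
      rw [hs ψ T hT]
      ring
    refine h7.trans_isBigO (IsBigO.fun_sum fun ψ _ => ?_)
    exact (h5 ψ γ hγ).const_mul_left _

end

end Pool.Agent.Run7.h767.ST
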