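import Pool.Agent.Run7.h767.ST.Ord

/-! # The Stickelberger function and its leading term at `0` -/

set_option autoImplicit false
set_option linter.unusedSectionVars false

open NumberField Complex Filter Topology Asymptotics

namespace Pool.Agent.Run7.h767.ST

open Pool.Agent.Y773 (LI)

variable {K : Type} [Field K] [NumberField K]

variable {G : Type} [Group G] [Finite G] {𝔣 : Ideal (𝓞 K)} {P : Set (K →+* ℝ)}

/-- `∑_(𝔞 prime to 𝔣) χ(A(𝔞)) N(𝔞)^(-s)` -/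
noncomputable def LS (𝔣 : Ideal (𝓞 K)) (A : Ideal (𝓞 K) → G) (χ : G →* ℂˣ) (s : ℂ) : ℂ :=
  ∑' 𝔞 : {𝔞 : Ideal (𝓞 K) // IsCoprime 𝔞 𝔣},
    ((χ (A 𝔞.1) : ℂˣ) : ℂ) * ((Ideal.absNorm 𝔞.1 : ℕ) : ℂ) ^ (-s)

/-- the factor of `T` -/
noncomputable def fac (T : Finset (Ideal (𝓞 K))) (A : Ideal (𝓞 K) → G) (χ : G →* ℂˣ) (s : ℂ) : ℂ :=
  ∏ v ∈ T, (1 - ((χ (A v) : ℂˣ) : ℂ) * ((Ideal.absNorm v : ℕ) : ℂ) ^ (1 - s))

/-- `Z` is the continuation of `L_(S,T)(χ, s)` -/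
def IsLT (𝔣 : Ideal (𝓞 K)) (T : Finset (Ideal (𝓞 K))) (A : Ideal (𝓞 K) → G) (χ : G →* ℂˣ)
    (Z : ℂ → ℂ) : Prop :=
  (∀ s, MeromorphicAt Z s) ∧ AnalyticAt ℂ Z 0 ∧ ∀ s : ℂ, 1 < s.re → Z s = fac T A χ s * LS 𝔣 A χ s

/-- `Z` vanishes to the order at least `n` at `0` -/
def Van (n : ℕ) (Z : ℂ → ℂ) : Prop :=
  ∃ g : ℂ → ℂ, AnalyticAt ℂ g 0 ∧ ∀ᶠ s in 𝓝 (0 : ℂ), Z s = s ^ n * g s

/-- `Θ` is the continuation of the Stickelberger function -/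
def IsTh (𝔣 : Ideal (𝓞 K)) (T : Finset (Ideal (𝓞 K))) (A : Ideal (𝓞 K) → G)
    (Θ : ℂ → G → ℂ) : Prop :=
  (∀ g s, MeromorphicAt (fun z => Θ z g) s) ∧ (∀ g, AnalyticAt ℂ (fun z => Θ z g) 0) ∧
    ∀ (χ : G →* ℂˣ) (s : ℂ), 1 < s.re →
      ∑ᶠ g : G, ((χ g : ℂˣ) : ℂ) * Θ s g = fac T A χ⁻¹ s * LS 𝔣 A χ⁻¹ s

/-- the approximation of the coefficient of `g` -/
noncomputable def apT (n : ℕ) (𝔣 : Ideal (𝓞 K)) (T : Finset (Ideal (𝓞 K))) (A : Ideal (𝓞 K) → G)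
    (g : G) (γ t : ℝ) : ℂ :=
  (t : ℂ) ^ n * exp (-(n * Pool.Agent.W187.UR.Lam γ)) * ((Nat.card G : ℂ)⁻¹ *
    ∑ᶠ χ : G →* ℂˣ, (starRingEnd ℂ) ((χ g : ℂˣ) : ℂ) * fac T A χ⁻¹ 0 *
      exp (∑ᶠ τ : G, ((χ⁻¹ τ : ℂˣ) : ℂ) * SG 𝔣 A τ γ t))

lemma fac_an (T : Finset (Ideal (𝓞 K))) (A : Ideal (𝓞 K) → G) (χ : G →* ℂˣ)
    (hT : ∀ v ∈ T, v ≠ ⊥) (s : ℂ) : AnalyticAt ℂ (fac T A χ) s := by
  unfold fac
  refine Finset.analyticAt_fun_prod _ fun v hv => ?_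
  refine analyticAt_const.sub (analyticAt_const.mul ?_)
  have h1 : ((Ideal.absNorm v : ℕ) : ℂ) ≠ 0 := by
    have := absNorm_pos' (K := K) (𝔮 := v) (hT v hv)
    exact_mod_cast this.ne'
  have h2 : (fun z : ℂ => ((Ideal.absNorm v : ℕ) : ℂ) ^ (1 - z)) = fun z =>
      exp (Complex.log (Ideal.absNorm v : ℕ) * (1 - z)) := by
    funext z
    rw [Complex.cpow_def_of_ne_zero h1]
  rw [h2]
  exact (analyticAt_const.mul (analyticAt_const.sub analyticAt_id)).cexp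

lemma norm_val (hcomm : ∀ a b : G, a * b = b * a) (χ : G →* ℂˣ) (g : G) :
    ‖((χ g : ℂˣ) : ℂ)‖ = 1 := by
  let _ : CommGroup G := { (inferInstance : Group G) with mul_comm := hcomm }
  exact norm_one_of_finite χ g

lemma fac_ne (hcomm : ∀ a b : G, a * b = b * a) (T : Finset (Ideal (𝓞 K)))
    (A : Ideal (𝓞 K) → G) (χ : G →* ℂˣ)
    (hT : ∀ v ∈ T, v.IsPrime ∧ v ≠ ⊥) : fac T A χ 0 ≠ 0 := by
  unfold fac
  refine Finset.prod_ne_zero_iff.2 fun v hv => ?_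
  obtain ⟨hp, hv0⟩ := hT v hv
  have h1 : 0 < Ideal.absNorm v := absNorm_pos' (K := K) (𝔮 := v) hv0
  have h2 : Ideal.absNorm v ≠ 1 := by
    rw [Ne, Ideal.absNorm_eq_one_iff]
    exact hp.ne_top
  have h3 : (2 : ℝ) ≤ (Ideal.absNorm v : ℕ) := by
    have : 2 ≤ Ideal.absNorm v := by omega
    exact_mod_cast this
  intro h4
  have h5 : ((χ (A v) : ℂˣ) : ℂ) * ((Ideal.absNorm v : ℕ) : ℂ) = 1 := by
    rw [sub_zero, Complex.cpow_one] at h4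
    exact (sub_eq_zero.1 h4).symm
  have h6 := congrArg norm h5
  rw [norm_mul, norm_val hcomm, one_mul, norm_one, Complex.norm_natCast] at h6
  linarith

lemma finite_dual2 (hcomm : ∀ a b : G, a * b = b * a) : Finite (G →* ℂˣ) := finite_dual' hcomm

/-- the continuation of one L-function -/
lemma exists_LT (hbot : 𝔣 ≠ ⊥) (htop : 𝔣 ≠ ⊤) {A : Ideal (𝓞 K) → G} (hA : IsArt 𝔣 P A)
    (χ : G →* ℂˣ) :
    ∃ (Φ : ℂ → ℂ), (∀ s : ℂ, s ≠ 1 → AnalyticAt ℂ Φ s) ∧ (∀ s : ℂ, MeromorphicAt Φ s) ∧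
      (∀ s : ℂ, 1 < s.re → Φ s = LS 𝔣 A χ s) ∧ Van (rk P) Φ ∧
      ∀ (n : ℕ) (g : ℂ → ℂ), AnalyticAt ℂ g 0 → (∀ᶠ s in 𝓝 (0 : ℂ), Φ s = s ^ n * g s) →
        ∀ γ : ℝ, Real.pi / 2 < γ →
          (fun t : ℝ => (t : ℂ) ^ n * exp (-(n * Pool.Agent.W187.UR.Lam γ)) *
            exp (∑ᶠ τ : G, ((χ τ : ℂˣ) : ℂ) * SG 𝔣 A τ γ t) - g 0) =O[atTop]
              fun t : ℝ => 1 / t := by
  classical
  have hχ := chi_isRay htop hA χ
  obtain ⟨e, he⟩ := exists_modChar hbot htop hχ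
  obtain ⟨G', hG, hGs⟩ := LI_ord he
  set k := (Finset.univ.filter fun φ : K →+* ℂ => Pool.Agent.Y773.G.ex e φ = 0).card with hk
  have hrk : rk P ≤ k := rk_le hχ he
  have hle := norm_char_le P hbot htop hχ
  have han : ∀ s : ℂ, AnalyticAt ℂ (fun z => z ^ k * G' z) s := fun s =>
    ((analyticAt_id.pow k).mul (hG.analyticAt s))
  have hmer : ∀ s : ℂ, MeromorphicAt (fun z => z ^ k * G' z / (z - 1)) s := fun s =>
    (han s).meromorphicAt.div ((analyticAt_id.sub analyticAt_const).meromorphicAt)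
  have hne : ∀ s : ℂ, 1 < s.re → s - 1 ≠ 0 := by
    intro s hs
    refine sub_ne_zero_of_ne ?_
    rintro rfl
    simp at hs
  refine ⟨fun z => z ^ k * G' z / (z - 1), fun s hs => ?_, hmer, fun s hs => ?_, ?_,
    fun n g hg hΦ γ hγ => ?_⟩
  · exact (han s).div (analyticAt_id.sub analyticAt_const) (sub_ne_zero_of_ne hs)
  · show s ^ k * G' s / (s - 1) = LS 𝔣 A χ s
    rw [hGs s hs, mul_div_cancel_left₀ _ (hne s hs), LI_chi]
    rfl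
  · refine ⟨fun z => z ^ (k - rk P) * G' z / (z - 1), ((analyticAt_id.pow _).mul
      (hG.analyticAt 0)).div (analyticAt_id.sub analyticAt_const) (by norm_num),
      Filter.Eventually.of_forall fun s => ?_⟩
    have h1 : s ^ k = s ^ rk P * s ^ (k - rk P) := by
      rw [← pow_add]
      congr 1
      omega
    show s ^ k * G' s / (s - 1) = s ^ rk P * (s ^ (k - rk P) * G' s / (s - 1))
    rw [h1]
    ring
  · obtain ⟨m, r, C, T₀, hm, hr, h⟩ := Pool.Agent.Run7.h453.CX.gen_law (lam := lg (K := K))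
      (c := Pool.Agent.Y772.DK.ee (chi htop hA χ))
      (Φ := fun z => z ^ k * G' z / (z - 1)) (A := 1) one_pos lg_nonneg
      (fun σ hσ => ee_summable hle hσ) (fun x _ => hmer _) (fun w hw => by
        rw [hGs w hw, mul_div_cancel_left₀ _ (hne w hw), Pool.Agent.Y772.DK.LI_eq_exp _ hle hw,
          LA_eq_cser]) hγ
    have h2 := coef_of_law hg hΦ hm hr h
    refine h2.congr' ?_ EventuallyEq.rfl
    filter_upwards [eventually_gt_atTop 0] with t ht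
    have h3 := SX_chi htop hA χ γ ht
    unfold SX at h3
    rw [h3]

lemma orth2 (hcomm : ∀ a b : G, a * b = b * a) [Fintype G] (χ ψ : G →* ℂˣ) :
    ∑ g : G, ((χ g : ℂˣ) : ℂ) * (starRingEnd ℂ) ((ψ g : ℂˣ) : ℂ) =
      if χ = ψ then (Nat.card G : ℂ) else 0 := by
  classical
  set f : G →* ℂ := (Units.coeHom ℂ).comp (χ * ψ⁻¹) with hf
  have h1 : ∀ g : G, ((χ g : ℂˣ) : ℂ) * (starRingEnd ℂ) ((ψ g : ℂˣ) : ℂ) = f g := by
    intro g
    have h2 : (starRingEnd ℂ) ((ψ g : ℂˣ) : ℂ) = (((ψ g)⁻¹ : ℂˣ) : ℂ) := by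
      rw [Units.val_inv_eq_inv_val, Complex.inv_def, Complex.normSq_eq_norm_sq,
        norm_val hcomm ψ g]
      simp
    rw [h2, hf]
    simp
  rw [Finset.sum_congr rfl fun g _ => h1 g, sum_hom_units f]
  have h3 : f = 1 ↔ χ = ψ := by
    constructor
    · intro h
      ext g
      have h4 := DFunLike.congr_fun h g
      rw [← h1 g, MonoidHom.one_apply] at h4
      have h5 : (starRingEnd ℂ) ((ψ g : ℂˣ) : ℂ) * ((ψ g : ℂˣ) : ℂ) = 1 := by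
        rw [mul_comm, Complex.mul_conj, Complex.normSq_eq_norm_sq, norm_val hcomm ψ g]
        simp
      calc ((χ g : ℂˣ) : ℂ) = ((χ g : ℂˣ) : ℂ) * ((starRingEnd ℂ) ((ψ g : ℂˣ) : ℂ) *
            ((ψ g : ℂˣ) : ℂ)) := by rw [h5, mul_one]
        _ = ((ψ g : ℂˣ) : ℂ) := by rw [← mul_assoc, h4, one_mul]
    · rintro rfl
      rw [hf]
      ext g
      simp
  by_cases h : χ = ψ
  · rw [if_pos h, if_pos (h3.2 h), Nat.card_eq_fintype_card]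
  · rw [if_neg h, if_neg (fun h4 => h (h3.1 h4)), Nat.cast_zero]

/-- inversion -/
lemma inversion (hcomm : ∀ a b : G, a * b = b * a) [Fintype G] [Fintype (G →* ℂˣ)]
    (f : G → ℂ) (g : G) : (Nat.card G : ℂ)⁻¹ * ∑ χ : G →* ℂˣ,
      (starRingEnd ℂ) ((χ g : ℂˣ) : ℂ) * ∑ h : G, ((χ h : ℂˣ) : ℂ) * f h = f g := by
  classical
  have hG : (Nat.card G : ℂ) ≠ 0 := by exact_mod_cast Nat.card_pos.ne'
  simp_rw [Finset.mul_sum]
  rw [Finset.sum_comm]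
  have h1 : ∀ h : G, ∑ χ : G →* ℂˣ, (Nat.card G : ℂ)⁻¹ * ((starRingEnd ℂ) ((χ g : ℂˣ) : ℂ) *
      (((χ h : ℂˣ) : ℂ) * f h)) =
      (Nat.card G : ℂ)⁻¹ * f h * (if h = g then (Nat.card G : ℂ) else 0) := by
    intro h
    rw [← orthG hcomm g h, Finset.mul_sum]
    exact Finset.sum_congr rfl fun χ _ => by ring
  rw [Finset.sum_congr rfl fun h _ => h1 h, Finset.sum_eq_single g]
  · rw [if_pos rfl]
    field_simp
  · intro h _ hh
    rw [if_neg hh, mul_zero]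
  · intro h
    exact absurd (Finset.mem_univ _) h

section main

variable (hbot : 𝔣 ≠ ⊥) (htop : 𝔣 ≠ ⊤) (hcomm : ∀ a b : G, a * b = b * a)
  {A : Ideal (𝓞 K) → G} (hA : IsArt 𝔣 P A) {T : Finset (Ideal (𝓞 K))}
  (hT : ∀ v ∈ T, v.IsPrime ∧ v ≠ ⊥)

include hbot htop hA hT in
/-- the continuation of `L_(S,T)` and its order -/
theorem van_rk (χ : G →* ℂˣ) :
    (∃ Z, IsLT 𝔣 T A χ Z) ∧ ∀ Z, IsLT 𝔣 T A χ Z → Van (rk P) Z := by
  obtain ⟨Φ, h1, h2, h3, ⟨g, hg, hgΦ⟩, -⟩ := exists_LT hbot htop hA χ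
  have hf := fun s => fac_an T A χ (fun v hv => (hT v hv).2) s
  have hL : IsLT 𝔣 T A χ (fun s => fac T A χ s * Φ s) :=
    ⟨fun s => (hf s).meromorphicAt.fun_mul (h2 s), (hf 0).fun_mul (h1 0 (by norm_num)),
      fun s hs => by
        show fac T A χ s * Φ s = _
        rw [h3 s hs]⟩
  refine ⟨⟨_, hL⟩, fun Z hZ => ?_⟩
  have h6 : Z =ᶠ[𝓝 0] fun s => fac T A χ s * Φ s := mero_uniq hZ.1 hL.1 hZ.2.1 hL.2.1
    fun s hs => (hZ.2.2 s hs).trans (hL.2.2 s hs).symm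
  refine ⟨fun s => fac T A χ s * g s, (hf 0).fun_mul hg, ?_⟩
  filter_upwards [h6, hgΦ] with s h7 h8
  rw [h7, h8]
  ring

include hbot htop hcomm hA hT in
/-- existence of the Stickelberger function -/
theorem exists_Th : ∃ Θ, IsTh 𝔣 T A Θ := by
  classical
  have := finite_dual' hcomm
  have := Fintype.ofFinite (G →* ℂˣ)
  have := Fintype.ofFinite G
  have hG : (Nat.card G : ℂ) ≠ 0 := by exact_mod_cast Nat.card_pos.ne'
  choose Z hZ using fun χ : G →* ℂˣ => (van_rk hbot htop hA hT χ).1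
  refine ⟨fun s g => (Nat.card G : ℂ)⁻¹ * ∑ χ : G →* ℂˣ,
    (starRingEnd ℂ) ((χ g : ℂˣ) : ℂ) * Z χ⁻¹ s, fun g s => ?_, fun g => ?_, fun χ s hs => ?_⟩
  · exact (analyticAt_const.meromorphicAt).fun_mul (mero_sum _ fun χ =>
      (analyticAt_const.meromorphicAt).fun_mul ((hZ χ⁻¹).1 s))
  · refine analyticAt_const.fun_mul (Finset.analyticAt_fun_sum _ fun χ _ => ?_)
    exact analyticAt_const.fun_mul (hZ χ⁻¹).2.1
  · rw [finsum_eq_sum_of_fintype]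
    have h1 : ∑ g : G, ((χ g : ℂˣ) : ℂ) * ((Nat.card G : ℂ)⁻¹ * ∑ ψ : G →* ℂˣ,
        (starRingEnd ℂ) ((ψ g : ℂˣ) : ℂ) * Z ψ⁻¹ s) =
        ∑ ψ : G →* ℂˣ, (Nat.card G : ℂ)⁻¹ * Z ψ⁻¹ s *
          ∑ g : G, ((χ g : ℂˣ) : ℂ) * (starRingEnd ℂ) ((ψ g : ℂˣ) : ℂ) := by
      simp_rw [Finset.mul_sum]
      rw [Finset.sum_comm]
      refine Finset.sum_congr rfl fun ψ _ => Finset.sum_congr rfl fun g _ => ?_
      ring
    show ∑ g : G, ((χ g : ℂˣ) : ℂ) * ((Nat.card G : ℂ)⁻¹ * ∑ ψ : G →* ℂˣ,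
        (starRingEnd ℂ) ((ψ g : ℂˣ) : ℂ) * Z ψ⁻¹ s) = _
    rw [h1, Finset.sum_eq_single χ]
    · rw [orth2 hcomm, if_pos rfl, (hZ χ⁻¹).2.2 s hs]
      field_simp
    · intro ψ _ hψ
      rw [orth2 hcomm, if_neg (Ne.symm hψ), mul_zero]
    · intro h
      exact absurd (Finset.mem_univ _) h

include hbot htop hcomm hA hT in
/-- **the leading term of the Stickelberger function** -/
theorem theta_lead (n : ℕ) (hn : ∀ (χ : G →* ℂˣ) Z, IsLT 𝔣 T A χ Z → Van n Z) {Θ : ℂ → G → ℂ}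
    (hΘ : IsTh 𝔣 T A Θ) (g : G) :
    ∃ Q : ℂ → ℂ, AnalyticAt ℂ Q 0 ∧ (∀ᶠ s in 𝓝 (0 : ℂ), Θ s g = s ^ n * Q s) ∧
      ∀ γ : ℝ, Real.pi / 2 < γ →
        (fun t : ℝ => apT n 𝔣 T A g γ t - Q 0) =O[atTop] fun t : ℝ => 1 / t := by
  classical
  have := finite_dual' hcomm
  have := Fintype.ofFinite (G →* ℂˣ)
  have := Fintype.ofFinite G
  have hG : (Nat.card G : ℂ) ≠ 0 := by exact_mod_cast Nat.card_pos.ne'
  choose Φ h1 h2 h3 h4 h5 using fun χ : G →* ℂˣ => exists_LT hbot htop hA χ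
  have hf := fun (χ : G →* ℂˣ) s => fac_an T A χ (fun v hv => (hT v hv).2) s
  have hL : ∀ χ, IsLT 𝔣 T A χ (fun s => fac T A χ s * Φ χ s) := fun χ =>
    ⟨fun s => (hf χ s).meromorphicAt.fun_mul (h2 χ s), (hf χ 0).fun_mul (h1 χ 0 (by norm_num)),
      fun s hs => by
        show fac T A χ s * Φ χ s = _
        rw [h3 χ s hs]⟩
  choose q hq hqΦ using fun χ => hn χ _ (hL χ)
  have hfne := fun χ => fac_ne hcomm T A χ hT
  -- the quotient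
  have hΦ : ∀ χ, ∀ᶠ s in 𝓝 (0 : ℂ), Φ χ s = s ^ n * (q χ s / fac T A χ s) := by
    intro χ
    have h6 : ∀ᶠ s in 𝓝 (0 : ℂ), fac T A χ s ≠ 0 := (hf χ 0).continuousAt.eventually_ne (hfne χ)
    filter_upwards [hqΦ χ, h6] with s h7 h8
    rw [← mul_div_assoc, ← h7, mul_div_cancel_left₀ _ h8]
  have hlaw : ∀ (χ : G →* ℂˣ) (γ : ℝ), Real.pi / 2 < γ →
      (fun t : ℝ => fac T A χ 0 * ((t : ℂ) ^ n * exp (-(n * Pool.Agent.W187.UR.Lam γ)) *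
        exp (∑ᶠ τ : G, ((χ τ : ℂˣ) : ℂ) * SG 𝔣 A τ γ t)) - q χ 0) =O[atTop]
          fun t : ℝ => 1 / t := by
    intro χ γ hγ
    have h6 := h5 χ n (fun s => q χ s / fac T A χ s) ((hq χ).fun_div (hf χ 0) (hfne χ)) (hΦ χ) γ hγ
    have h7 := h6.const_mul_left (fac T A χ 0)
    refine h7.congr_left fun t => ?_
    rw [mul_sub, mul_div_cancel₀ _ (hfne χ)]
  -- the germ of `Θ`
  have hΘ0 : (fun s => Θ s g) =ᶠ[𝓝 0] fun s => (Nat.card G : ℂ)⁻¹ * ∑ χ : G →* ℂˣ,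
      (starRingEnd ℂ) ((χ g : ℂˣ) : ℂ) * (fac T A χ⁻¹ s * Φ χ⁻¹ s) := by
    refine mero_uniq (hΘ.1 g) (fun s => ?_) (hΘ.2.1 g) ?_ fun s hs => ?_
    · exact (analyticAt_const.meromorphicAt).fun_mul (mero_sum _ fun χ =>
        (analyticAt_const.meromorphicAt).fun_mul ((hL χ⁻¹).1 s))
    · refine analyticAt_const.fun_mul (Finset.analyticAt_fun_sum _ fun χ _ => ?_)
      exact analyticAt_const.fun_mul (hL χ⁻¹).2.1
    · rw [← inversion hcomm (fun h => Θ s h) g]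
      congr 1
      refine Finset.sum_congr rfl fun χ _ => ?_
      have h6 := hΘ.2.2 χ s hs
      rw [finsum_eq_sum_of_fintype] at h6
      rw [h6, ← (hL χ⁻¹).2.2 s hs]
  refine ⟨fun s => (Nat.card G : ℂ)⁻¹ * ∑ χ : G →* ℂˣ,
    (starRingEnd ℂ) ((χ g : ℂˣ) : ℂ) * q χ⁻¹ s, ?_, ?_, fun γ hγ => ?_⟩
  · refine analyticAt_const.fun_mul (Finset.analyticAt_fun_sum _ fun χ _ => ?_)
    exact analyticAt_const.fun_mul (hq χ⁻¹)
  · have h7 : ∀ᶠ s in 𝓝 (0 : ℂ), ∀ χ : G →* ℂˣ,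
        fac T A χ⁻¹ s * Φ χ⁻¹ s = s ^ n * q χ⁻¹ s := by
      rw [Filter.eventually_all]
      exact fun χ => hqΦ χ⁻¹
    filter_upwards [hΘ0, h7] with s h8 h9
    rw [h8, Finset.mul_sum, Finset.mul_sum, Finset.mul_sum]
    refine Finset.sum_congr rfl fun χ _ => ?_
    rw [h9 χ]
    ring
  · have h7 : (fun t : ℝ => apT n 𝔣 T A g γ t - (Nat.card G : ℂ)⁻¹ * ∑ χ : G →* ℂˣ,
        (starRingEnd ℂ) ((χ g : ℂˣ) : ℂ) * q χ⁻¹ 0) =
        fun t : ℝ => ∑ χ : G →* ℂˣ, ((Nat.card G : ℂ)⁻¹ * (starRingEnd ℂ) ((χ g : ℂˣ) : ℂ)) *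
          (fac T A χ⁻¹ 0 * ((t : ℂ) ^ n * exp (-(n * Pool.Agent.W187.UR.Lam γ)) *
            exp (∑ᶠ τ : G, ((χ⁻¹ τ : ℂˣ) : ℂ) * SG 𝔣 A τ γ t)) - q χ⁻¹ 0) := by
      funext t
      unfold apT
      rw [finsum_eq_sum_of_fintype, Finset.mul_sum, Finset.mul_sum,
        Finset.mul_sum, ← Finset.sum_sub_distrib]
      refine Finset.sum_congr rfl fun χ _ => ?_
      ring
    rw [h7]
    refine IsBigO.fun_sum fun χ _ => ?_
    exact (hlaw χ⁻¹ γ hγ).const_mul_left _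

end main

/-- the derivative of order `n` at `0` of `s ^ n q(s)` -/
lemma iter_deriv (n : ℕ) : ∀ {f q : ℂ → ℂ}, AnalyticAt ℂ q 0 →
    (∀ᶠ s in 𝓝 (0 : ℂ), f s = s ^ n * q s) → iteratedDeriv n f 0 = n.factorial * q 0 := by
  induction n with
  | zero =>
    intro f q _ h
    rw [iteratedDeriv_zero, h.self_of_nhds]
    simp
  | succ n ih =>
    intro f q hq h
    rw [iteratedDeriv_succ']
    have h1 : ∀ᶠ s in 𝓝 (0 : ℂ), deriv f s = s ^ n * ((n + 1) * q s + s * deriv q s) := by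
      filter_upwards [h.eventually_nhds, hq.eventually_analyticAt] with s h2 h3
      have h4 : f =ᶠ[𝓝 s] fun z => z ^ (n + 1) * q z := h2
      rw [h4.deriv_eq]
      have h5 : HasDerivAt (fun z : ℂ => z ^ (n + 1) * q z)
          ((((n + 1 : ℕ) : ℂ) * s ^ n) * q s + s ^ (n + 1) * deriv q s) s := by
        have h6 : HasDerivAt (fun z : ℂ => z ^ (n + 1)) (((n + 1 : ℕ) : ℂ) * s ^ n) s := by
          simpa using hasDerivAt_pow (n + 1) s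
        exact h6.mul h3.differentiableAt.hasDerivAt
      rw [h5.deriv]
      push_cast
      ring
    rw [ih (q := fun s => (n + 1) * q s + s * deriv q s)
      ((analyticAt_const.mul hq).add (analyticAt_id.mul hq.deriv)) h1]
    simp only [zero_mul, add_zero]
    rw [Nat.factorial_succ]
    push_cast
    ring

/-- the limit of `s ^ (-n) f(s)` -/
lemma lim_quot {n : ℕ} {f q : ℂ → ℂ} (hq : AnalyticAt ℂ q 0)
    (h : ∀ᶠ s in 𝓝 (0 : ℂ), f s = s ^ n * q s) :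
    Tendsto (fun s : ℂ => (s ^ n)⁻¹ * f s) (𝓝[≠] 0) (𝓝 (q 0)) := by
  refine (hq.continuousAt.tendsto.mono_left nhdsWithin_le_nhds).congr' ?_
  filter_upwards [h.filter_mono nhdsWithin_le_nhds, self_mem_nhdsWithin] with s h1 h2
  have h3 : s ^ n ≠ 0 := pow_ne_zero n h2
  rw [h1, inv_mul_cancel_left₀ h3]

end Pool.Agent.Run7.h767.ST
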