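import Pool.Agent.Run7.h767.ST.Neg

/-! # The values at `s = -j` of the L-functions of ray class characters -/

set_option autoImplicit false
set_option linter.unusedSectionVars false

open NumberField Complex Filter Topology Asymptotics

namespace Pool.Agent.Run7.h767.ST

open Pool.Agent.Y773 (LI)
open Pool.Agent.Y772.DK (ee ee_zero)
open Pool.Agent.Run7.h453.CX (rterm cser rterm_summable gen_law)

variable {K : Type} [Field K] [NumberField K]

variable {G : Type} [Group G] [Finite G] {𝔣 : Ideal (𝓞 K)} {P : Set (K →+* ℝ)}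

/-- **the law for the value at `-j`** -/
theorem value_law_neg (j : ℕ) (hbot : 𝔣 ≠ ⊥) (htop : 𝔣 ≠ ⊤) {A : Ideal (𝓞 K) → G}
    (hA : IsArt 𝔣 P A) (χ : G →* ℂˣ) {Z : ℂ → ℂ} (hZ : IsLC 𝔣 A χ Z)
    {γ : ℝ} (hγ : Real.pi / 2 < γ) :
    (fun t : ℝ => exp (∑ᶠ τ : G, ((χ τ : ℂˣ) : ℂ) * SJ j 𝔣 A τ γ t) - Z (0 - j)) =O[atTop]
      fun t : ℝ => 1 / t := by
  obtain ⟨Φ, hΦ, hmer⟩ := lc_exists hbot htop hA χ
  have hg : AnalyticAt ℂ (fun s : ℂ => Z (s - j)) 0 := by
    have h1 : AnalyticAt ℂ (fun s : ℂ => s - j) 0 := analyticAt_id.sub analyticAt_const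
    exact AnalyticAt.fun_comp (g := Z) (f := fun s : ℂ => s - j) (hZ.1 _ (sub_ne_one j)) h1
  have hχ := chi_isRay htop hA χ
  have hle := norm_char_le P hbot htop hχ
  have h11 : Tendsto (fun s : ℂ => s - j) (𝓝 0) (𝓝 (0 - (j : ℂ))) := by
    have h12 : Continuous fun s : ℂ => s - j := continuous_id.sub continuous_const
    exact h12.tendsto 0
  have h13 : ∀ᶠ s : ℂ in 𝓝 0, s - (j : ℂ) ≠ 1 := h11.eventually_ne (sub_ne_one j)
  have hgΦ : ∀ᶠ s in 𝓝 (0 : ℂ), (fun z : ℂ => Φ (z - j)) s =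
      s ^ 0 * (fun s : ℂ => Z (s - j)) s := by
    filter_upwards [h13] with s h15
    show Φ (s - j) = s ^ 0 * Z (s - j)
    rw [pow_zero, one_mul, lc_uniq hZ hΦ h15]
  have hlaw := gen_law (lam := lg (K := K)) (c := cj j (ee (chi htop hA χ)))
    (Φ := fun z => Φ (z - j)) (A := (j : ℝ) + 1) (by positivity) lg_nonneg
    (fun σ hσ => by
      have h1 := ee_summable hle (σ := σ - j) (by linarith)
      exact h1.congr fun 𝔞 => (cj_norm j (ee_zero _) σ 𝔞).symm)
    (fun x _ => by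
      have h1 : AnalyticAt ℂ (fun s : ℂ => s - j) (x : ℂ) := analyticAt_id.sub analyticAt_const
      exact MeromorphicAt.comp_analyticAt (f := Φ) (g := fun s : ℂ => s - j) (hmer _) h1)
    (fun w hw => by
      have hw' : 1 < (w - j).re := by
        rw [Complex.sub_re, Complex.natCast_re]
        linarith
      show Φ (w - j) = _
      have h10 : LS 𝔣 A χ (w - j) = LI (chi htop hA χ) (w - j) := by
        rw [LI_chi]
        rfl
      rw [hΦ.2 _ hw', h10, Pool.Agent.Y772.DK.LI_eq_exp _ hle hw', LA_eq_cser,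
        cj_cser j (ee_zero _)]) hγ
  obtain ⟨m', r, C, T₀, hm', hr, h⟩ := hlaw
  have h2 := coef_of_law hg hgΦ hm' hr h
  refine h2.congr' ?_ EventuallyEq.rfl
  filter_upwards [eventually_gt_atTop 0] with t ht
  have h3 := SJ_chi j htop hA χ γ ht
  rw [h3]
  simp only [pow_zero, one_mul, Nat.cast_zero, zero_mul, neg_zero, Complex.exp_zero]

end Pool.Agent.Run7.h767.ST
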