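import Mathlib

/-! # Ideals of an order prime to a modulus -/

set_option autoImplicit false
set_option linter.unusedSectionVars false

namespace Pool.Agent.Run7.h767.ST.OZ

variable {R : Type} [CommRing R] {O : Subring R}

/-- `(𝔪 : R)` -/
def colon (𝔪 : Ideal O) : Ideal R where
  carrier := {x | ∀ y : R, ∃ z ∈ 𝔪, (z : R) = x * y}
  add_mem' := by
    intro a b ha hb y
    obtain ⟨z, hz, hz'⟩ := ha y
    obtain ⟨w, hw, hw'⟩ := hb y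
    exact ⟨z + w, add_mem hz hw, by push_cast; rw [hz', hw']; ring⟩
  zero_mem' := fun y => ⟨0, zero_mem _, by simp⟩
  smul_mem' := by
    intro c x hx y
    obtain ⟨z, hz, hz'⟩ := hx (c * y)
    exact ⟨z, hz, by rw [hz', smul_eq_mul]; ring⟩

lemma mem_colon {𝔪 : Ideal O} {x : R} : x ∈ colon 𝔪 ↔ ∀ y : R, ∃ z ∈ 𝔪, (z : R) = x * y :=
  Iff.rfl

lemma colon_mem {𝔪 : Ideal O} {x : R} (hx : x ∈ colon 𝔪) : ∃ z ∈ 𝔪, (z : R) = x := by
  obtain ⟨z, hz, h⟩ := hx 1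
  exact ⟨z, hz, by rw [h, mul_one]⟩

/-- the contraction of `(𝔪 : R)` to `O` -/
def FF (𝔪 : Ideal O) : Ideal O := (colon 𝔪).comap O.subtype

lemma FF_le (𝔪 : Ideal O) : FF 𝔪 ≤ 𝔪 := by
  intro x hx
  obtain ⟨z, hz, h⟩ := colon_mem (Ideal.mem_comap.1 hx)
  have : z = x := Subtype.ext h
  rwa [← this]

lemma cop_FF {𝔪 𝔞 : Ideal O} {k : ℕ} (hk : ∀ x ∈ 𝔪 ^ k, ∀ y : R, (x : R) * y ∈ O)
    (h : IsCoprime 𝔞 𝔪) : IsCoprime 𝔞 (FF 𝔪) := by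
  have h1 : IsCoprime 𝔞 (𝔪 ^ k * 𝔪) := by
    rw [← pow_succ]
    exact h.pow_right
  have h2 : 𝔪 ^ k * 𝔪 ≤ FF 𝔪 := by
    rw [Ideal.mul_le]
    intro x hx m hm
    rw [FF, Ideal.mem_comap]
    intro y
    refine ⟨⟨_, hk x hx y⟩ * m, 𝔪.mul_mem_left _ hm, ?_⟩
    push_cast
    simp only [Subring.coe_subtype, Subring.coe_mul]
    ring
  obtain ⟨a, ha, b, hb, h3⟩ := Ideal.isCoprime_iff_exists.1 h1
  exact Ideal.isCoprime_iff_exists.2 ⟨a, ha, b, h2 hb, h3⟩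

lemma cop_of_FF {𝔪 𝔞 : Ideal O} (h : IsCoprime 𝔞 (FF 𝔪)) : IsCoprime 𝔞 𝔪 := by
  rw [Ideal.isCoprime_iff_exists] at h ⊢
  obtain ⟨a, ha, f, hf, h1⟩ := h
  exact ⟨a, ha, f, FF_le 𝔪 hf, h1⟩

lemma mul_colon {𝔪 𝔞 : Ideal O} {z : R} (hz : z ∈ 𝔞.map O.subtype) :
    ∀ f ∈ colon 𝔪, ∃ a ∈ 𝔞, (a : R) = z * f := by
  rw [Ideal.map] at hz
  induction hz using Submodule.span_induction with
  | mem x hx =>
    obtain ⟨a, ha, rfl⟩ := hx
    intro f hf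
    obtain ⟨w, -, hw⟩ := colon_mem hf
    refine ⟨a * w, 𝔞.mul_mem_right _ ha, ?_⟩
    rw [Subring.coe_mul, hw]
    rfl
  | zero => exact fun f _ => ⟨0, zero_mem _, by simp⟩
  | add x y _ _ hx hy =>
    intro f hf
    obtain ⟨a, ha, h1⟩ := hx f hf
    obtain ⟨b, hb, h2⟩ := hy f hf
    exact ⟨a + b, add_mem ha hb, by rw [Subring.coe_add, h1, h2]; ring⟩
  | smul c x _ hx =>
    intro f hf
    obtain ⟨a, ha, h1⟩ := hx (c * f) ((colon 𝔪).mul_mem_left c hf)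
    exact ⟨a, ha, by rw [h1, smul_eq_mul]; ring⟩

lemma comap_map {𝔪 𝔞 : Ideal O} (h : IsCoprime 𝔞 (FF 𝔪)) :
    (𝔞.map O.subtype).comap O.subtype = 𝔞 := by
  refine le_antisymm ?_ Ideal.le_comap_map
  intro x hx
  rw [Ideal.mem_comap] at hx
  obtain ⟨a, ha, f, hf, h1⟩ := Ideal.isCoprime_iff_exists.1 h
  obtain ⟨b, hb, h2⟩ := mul_colon (𝔪 := 𝔪) hx (f : R) (Ideal.mem_comap.1 hf)
  have h3 : x = a * x + b := by
    apply Subtype.ext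
    rw [Subring.coe_add, Subring.coe_mul, h2]
    have h4 : ((a : R) + (f : R)) = 1 := by
      rw [← Subring.coe_add, h1, Subring.coe_one]
    calc (x : R) = (a + f) * x := by rw [h4, one_mul]
      _ = _ := by
        simp only [Subring.coe_subtype]
        ring
  rw [h3]
  exact add_mem (𝔞.mul_mem_right _ ha) hb

lemma exists_cop {𝔪 : Ideal O} {𝔟 : Ideal R} (h : IsCoprime 𝔟 (colon 𝔪)) :
    ∃ b ∈ 𝔟.comap O.subtype, ∃ f ∈ FF 𝔪, b + f = 1 := by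
  obtain ⟨b, hb, f, hf, h1⟩ := Ideal.isCoprime_iff_exists.1 h
  obtain ⟨z, hz, h2⟩ := colon_mem hf
  refine ⟨1 - z, ?_, z, ?_, by ring⟩
  · rw [Ideal.mem_comap]
    have : O.subtype (1 - z) = b := by
      rw [map_sub, map_one]
      show 1 - (z : R) = b
      rw [h2, ← h1]
      ring
    rwa [this]
  · rw [FF, Ideal.mem_comap]
    show (z : R) ∈ _
    rwa [h2]

lemma cop_comap {𝔪 : Ideal O} {𝔟 : Ideal R} (h : IsCoprime 𝔟 (colon 𝔪)) :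
    IsCoprime (𝔟.comap O.subtype) (FF 𝔪) := by
  obtain ⟨b, hb, f, hf, h1⟩ := exists_cop h
  exact Ideal.isCoprime_iff_exists.2 ⟨b, hb, f, hf, h1⟩

lemma map_comap {𝔪 : Ideal O} {𝔟 : Ideal R} (h : IsCoprime 𝔟 (colon 𝔪)) :
    (𝔟.comap O.subtype).map O.subtype = 𝔟 := by
  refine le_antisymm Ideal.map_comap_le ?_
  intro y hy
  obtain ⟨b, hb, f, hf, h1⟩ := exists_cop h
  have h2 : y = y * (b : R) + y * (f : R) := by
    rw [← mul_add, ← Subring.coe_add, h1, Subring.coe_one, mul_one]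
  rw [h2]
  refine add_mem (Ideal.mul_mem_left _ _ (Ideal.mem_map_of_mem O.subtype hb)) ?_
  have h3 : y * (f : R) ∈ colon 𝔪 := (colon 𝔪).mul_mem_left _ (Ideal.mem_comap.1 hf)
  obtain ⟨z, hz, h4⟩ := colon_mem h3
  have h5 : z ∈ 𝔟.comap O.subtype := by
    rw [Ideal.mem_comap]
    show (z : R) ∈ 𝔟
    rw [h4]
    exact 𝔟.mul_mem_right _ hy
  have h6 := Ideal.mem_map_of_mem O.subtype h5
  have h7 : O.subtype z = y * (f : R) := h4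
  rwa [h7] at h6

lemma cop_map {𝔪 𝔞 : Ideal O} (h : IsCoprime 𝔞 (FF 𝔪)) :
    IsCoprime (𝔞.map O.subtype) (colon 𝔪) := by
  obtain ⟨a, ha, f, hf, h1⟩ := Ideal.isCoprime_iff_exists.1 h
  refine Ideal.isCoprime_iff_exists.2 ⟨a, Ideal.mem_map_of_mem O.subtype ha, f,
    Ideal.mem_comap.1 hf, ?_⟩
  show (a : R) + (f : R) = 1
  rw [← Subring.coe_add, h1, Subring.coe_one]

lemma card_quot {𝔪 𝔞 : Ideal O} (h : IsCoprime 𝔞 (FF 𝔪)) :
    Nat.card (O ⧸ 𝔞) = Nat.card (R ⧸ 𝔞.map O.subtype) := by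
  refine Nat.card_congr (Equiv.ofBijective
    (Ideal.quotientMap (𝔞.map O.subtype) O.subtype Ideal.le_comap_map) ⟨?_, ?_⟩)
  · exact Ideal.quotientMap_injective' (comap_map h).le
  · intro q
    obtain ⟨y, rfl⟩ := Ideal.Quotient.mk_surjective q
    obtain ⟨a, ha, f, hf, h1⟩ := Ideal.isCoprime_iff_exists.1 h
    have h3 : y * (f : R) ∈ colon 𝔪 := (colon 𝔪).mul_mem_left _ (Ideal.mem_comap.1 hf)
    obtain ⟨z, hz, h4⟩ := colon_mem h3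
    refine ⟨Ideal.Quotient.mk 𝔞 z, ?_⟩
    rw [Ideal.quotientMap_mk, Ideal.Quotient.eq]
    show (z : R) - y ∈ _
    have h5 : (z : R) - y = -(y * (a : R)) := by
      have h6 : ((a : R) + (f : R)) = 1 := by
        rw [← Subring.coe_add, h1, Subring.coe_one]
      rw [h4]
      linear_combination y * h6
    rw [h5]
    exact neg_mem (Ideal.mul_mem_left _ _ (Ideal.mem_map_of_mem O.subtype ha))

lemma comap_mul {𝔪 : Ideal O} {𝔟 𝔟' : Ideal R} (h : IsCoprime 𝔟 (colon 𝔪))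
    (h' : IsCoprime 𝔟' (colon 𝔪)) :
    (𝔟 * 𝔟').comap O.subtype = 𝔟.comap O.subtype * 𝔟'.comap O.subtype := by
  have h1 : IsCoprime (𝔟.comap O.subtype * 𝔟'.comap O.subtype) (FF 𝔪) :=
    (cop_comap h).mul_left (cop_comap h')
  rw [← comap_map h1, Ideal.map_mul, map_comap h, map_comap h']

lemma comap_span {𝔪 : Ideal O} {x : R} (hx : x - 1 ∈ colon 𝔪) :
    ∃ z : O, z - 1 ∈ 𝔪 ∧ (z : R) = x ∧ (Ideal.span {x}).comap O.subtype = Ideal.span {z} := by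
  obtain ⟨w, hw, h1⟩ := colon_mem hx
  have h2 : ((1 + w : O) : R) = x := by
    rw [Subring.coe_add, Subring.coe_one, h1]
    ring
  refine ⟨1 + w, by simpa using hw, h2, ?_⟩
  have h3 : IsCoprime (Ideal.span {(1 + w : O)}) (FF 𝔪) := by
    refine Ideal.isCoprime_iff_exists.2 ⟨1 + w, Ideal.mem_span_singleton_self _, -w, ?_, by ring⟩
    rw [neg_mem_iff, FF, Ideal.mem_comap]
    show (w : R) ∈ _
    rwa [h1]
  have h4 : (Ideal.span {(1 + w : O)}).map O.subtype = Ideal.span {x} := by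
    rw [Ideal.map_span, Set.image_singleton]
    show Ideal.span {((1 + w : O) : R)} = _
    rw [h2]
  rw [← h4, comap_map h3]

/-- the bijection -/
noncomputable def equiv {G : Type} {𝔪 : Ideal O} {k : ℕ}
    (hk : ∀ x ∈ 𝔪 ^ k, ∀ y : R, (x : R) * y ∈ O) (A : Ideal O → G) (ρ : G) :
    {𝔟 : Ideal R // IsCoprime 𝔟 (colon 𝔪) ∧ A (𝔟.comap O.subtype) = ρ} ≃
      {𝔞 : Ideal O // IsCoprime 𝔞 𝔪 ∧ A 𝔞 = ρ} where
  toFun 𝔟 := ⟨𝔟.1.comap O.subtype, cop_of_FF (cop_comap 𝔟.2.1), 𝔟.2.2⟩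
  invFun 𝔞 := ⟨𝔞.1.map O.subtype, cop_map (cop_FF hk 𝔞.2.1), by
    rw [comap_map (cop_FF hk 𝔞.2.1)]; exact 𝔞.2.2⟩
  left_inv 𝔟 := Subtype.ext (map_comap 𝔟.2.1)
  right_inv 𝔞 := Subtype.ext (comap_map (cop_FF hk 𝔞.2.1))

lemma colon_ne_bot [IsDomain R] {𝔪 : Ideal O} (hm : 𝔪 ≠ ⊥) {n : ℕ} (hn : (n : R) ≠ 0)
    (hO : ∀ y : R, (n : R) * y ∈ O) : colon 𝔪 ≠ ⊥ := by
  obtain ⟨x, hx, hx0⟩ := Submodule.exists_mem_ne_zero_of_ne_bot hm
  have hx0' : (x : R) ≠ 0 := fun h => hx0 (Subtype.ext h)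
  intro h
  have h1 : (n : R) * (x : R) ∈ colon 𝔪 := by
    intro y
    exact ⟨x * ⟨_, hO y⟩, 𝔪.mul_mem_right _ hx, by rw [Subring.coe_mul]; ring⟩
  rw [h, Ideal.mem_bot] at h1
  exact (mul_ne_zero hn hx0') h1

lemma colon_ne_top {𝔪 : Ideal O} (hm : 𝔪 ≠ ⊤) : colon 𝔪 ≠ ⊤ := by
  intro h
  apply hm
  have h1 : (1 : R) ∈ colon 𝔪 := by rw [h]; exact Submodule.mem_top
  obtain ⟨z, hz, h2⟩ := colon_mem h1
  have : z = 1 := Subtype.ext h2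
  rw [Ideal.eq_top_iff_one, ← this]
  exact hz

end Pool.Agent.Run7.h767.ST.OZ
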