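import Pool.Agent.Run7.h767.ST.Tht

/-! # The leading coefficients at `s = -j` of the L-functions of ray class characters -/

set_option autoImplicit false
set_option linter.unusedSectionVars false

open NumberField Complex Filter Topology Asymptotics

namespace Pool.Agent.Run7.h767.ST

open Pool.Agent.Y773 (LI)
open Pool.Agent.Y772.DK (ee ee_zero)
open Pool.Agent.Run7.h453.CX (rterm cser rterm_summable gen_law)

variable {K : Type} [Field K] [NumberField K]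

variable {G : Type} [Group G] [Finite G] {𝔣 : Ideal (𝓞 K)} {P : Set (K →+* ℝ)}

lemma npow_eq (j : ℕ) {𝔞 : Ideal (𝓞 K)} (h : 𝔞 ≠ 0) :
    ((Ideal.absNorm 𝔞 : ℕ) : ℂ) ^ j = exp (j * lg 𝔞) := by
  have h1 := cpow_eq h (s := -(j : ℂ))
  rw [neg_neg, Complex.cpow_natCast] at h1
  rw [h1]
  congr 1
  ring

/-- the coefficients at `-j` -/
noncomputable def cj (j : ℕ) (c : Ideal (𝓞 K) → ℂ) (𝔞 : Ideal (𝓞 K)) : ℂ :=
  c 𝔞 * ((Ideal.absNorm 𝔞 : ℕ) : ℂ) ^ j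

lemma cj_norm (j : ℕ) {c : Ideal (𝓞 K) → ℂ} (hc : c 0 = 0) (σ : ℝ) (𝔞 : Ideal (𝓞 K)) :
    ‖cj j c 𝔞‖ * Real.exp (-(σ * lg 𝔞)) = ‖c 𝔞‖ * Real.exp (-((σ - j) * lg 𝔞)) := by
  unfold cj
  by_cases h : 𝔞 = 0
  · rw [h, hc, zero_mul, norm_zero, zero_mul, zero_mul]
  · rw [norm_mul, npow_eq j h, Complex.norm_exp, mul_assoc, ← Real.exp_add]
    congr 2
    simp only [Complex.mul_re, Complex.natCast_re, Complex.natCast_im, Complex.ofReal_re,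
      Complex.ofReal_im, mul_zero, sub_zero]
    ring

lemma cj_cser (j : ℕ) {c : Ideal (𝓞 K) → ℂ} (hc : c 0 = 0) (w : ℂ) :
    cser lg c (w - j) = cser lg (cj j c) w := by
  unfold cser
  refine tsum_congr fun 𝔞 => ?_
  unfold cj
  by_cases h : 𝔞 = 0
  · rw [h, hc, zero_mul, zero_mul, zero_mul]
  · rw [npow_eq j h, mul_assoc, ← Complex.exp_add]
    congr 2
    ring

/-- the terms at `-j` -/
noncomputable def tj (j : ℕ) (γ T : ℝ) (𝔞 : Ideal (𝓞 K)) : ℂ :=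
  tm γ T 𝔞 * ((Ideal.absNorm 𝔞 : ℕ) : ℂ) ^ j

lemma tj_summable (j : ℕ) (γ : ℝ) {T : ℝ} (hT : 0 < T) :
    Summable fun 𝔞 : Ideal (𝓞 K) => ‖tj j γ T 𝔞‖ := by
  have h1 : Summable fun 𝔞 : Ideal (𝓞 K) =>
      ‖cj j (c0 (K := K)) 𝔞‖ * Real.exp (-(((j : ℝ) + 2) * lg 𝔞)) := by
    have h2 : Summable fun 𝔞 : Ideal (𝓞 K) => ‖c0 (K := K) 𝔞‖ * Real.exp (-((2 : ℝ) * lg 𝔞)) :=
      c0_summable (by norm_num)
    refine h2.congr fun 𝔞 => ?_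
    rw [cj_norm j c0_zero]
    congr 3
    ring
  have h3 := rterm_summable (lam := lg (K := K)) (c := cj j (c0 (K := K))) lg_nonneg
    (by positivity : (0 : ℝ) < (j : ℝ) + 2) h1 γ hT
  refine h3.congr fun 𝔞 => ?_
  congr 1
  unfold tj tm rterm cj
  ring

/-- `S_τ(T)` at `-j` -/
noncomputable def SJ (j : ℕ) (𝔣 : Ideal (𝓞 K)) (A : Ideal (𝓞 K) → G) (τ : G) (γ T : ℝ) : ℂ :=
  ∑' 𝔞 : {𝔞 : Ideal (𝓞 K) // IsCoprime 𝔞 𝔣 ∧ A 𝔞 = τ}, tj j γ T 𝔞.1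

lemma SJ_chi (j : ℕ) (htop : 𝔣 ≠ ⊤) {A : Ideal (𝓞 K) → G} (hA : IsArt 𝔣 P A) (ψ : G →* ℂˣ)
    (γ : ℝ) {T : ℝ} (hT : 0 < T) :
    ∑' 𝔞, rterm lg (cj j (ee (chi htop hA ψ))) γ T 𝔞 =
      ∑ᶠ τ : G, ((ψ τ : ℂˣ) : ℂ) * SJ j 𝔣 A τ γ T := by
  have := Fintype.ofFinite G
  rw [finsum_eq_sum_of_fintype]
  have h1 : ∀ 𝔞, rterm lg (cj j (ee (chi htop hA ψ))) γ T 𝔞 =
      chi htop hA ψ 𝔞 * tj j γ T 𝔞 := by
    intro 𝔞
    have h2 := rterm_eq (chi htop hA ψ) γ T 𝔞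
    unfold tj
    rw [← mul_assoc, ← h2]
    unfold rterm cj
    ring
  rw [tsum_congr h1, tsum_chi htop hA ψ (tj_summable j γ hT)]
  rfl

/-- `Z` is the analytic continuation of `L_S(χ, s)` to `ℂ ∖ {1}` -/
def IsLC (𝔣 : Ideal (𝓞 K)) (A : Ideal (𝓞 K) → G) (χ : G →* ℂˣ) (Z : ℂ → ℂ) : Prop :=
  (∀ s : ℂ, s ≠ 1 → AnalyticAt ℂ Z s) ∧ ∀ s : ℂ, 1 < s.re → Z s = LS 𝔣 A χ s

/-- order `m` and leading coefficient `c` at `-j` -/
def LeadAt (j : ℕ) (Z : ℂ → ℂ) (m : ℕ) (c : ℂ) : Prop :=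
  c ≠ 0 ∧ ∃ g : ℂ → ℂ, AnalyticAt ℂ g 0 ∧ g 0 = c ∧ ∀ᶠ s in 𝓝 (0 : ℂ), Z (s - j) = s ^ m * g s

lemma pre_one : IsPreconnected ({1}ᶜ : Set ℂ) :=
  (isConnected_compl_singleton_of_one_lt_rank
    (by rw [Complex.rank_real_complex]; norm_num) (1 : ℂ)).isPreconnected

lemma lc_uniq {A : Ideal (𝓞 K) → G} {χ : G →* ℂˣ} {Z W : ℂ → ℂ} (hZ : IsLC 𝔣 A χ Z)
    (hW : IsLC 𝔣 A χ W) {s : ℂ} (hs : s ≠ 1) : Z s = W s := by
  have h1 : Z =ᶠ[𝓝 2] W := by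
    have hopen : IsOpen {z : ℂ | 1 < z.re} := isOpen_lt continuous_const Complex.continuous_re
    filter_upwards [hopen.mem_nhds (by show (1 : ℝ) < (2 : ℂ).re; norm_num)] with z hz
    rw [hZ.2 z hz, hW.2 z hz]
  have h2 : Set.EqOn Z W ({1}ᶜ : Set ℂ) :=
    AnalyticOnNhd.eqOn_of_preconnected_of_eventuallyEq (z₀ := 2)
      (fun s hs => hZ.1 s hs) (fun s hs => hW.1 s hs) pre_one (by simp) h1
  exact h2 hs

theorem lc_exists (hbot : 𝔣 ≠ ⊥) (htop : 𝔣 ≠ ⊤) {A : Ideal (𝓞 K) → G} (hA : IsArt 𝔣 P A)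
    (χ : G →* ℂˣ) : ∃ Φ, IsLC 𝔣 A χ Φ ∧ ∀ s, MeromorphicAt Φ s := by
  obtain ⟨Φ, h1, h2, h3, -, -⟩ := exists_LT hbot htop hA χ
  exact ⟨Φ, ⟨h1, h3⟩, h2⟩

lemma sub_ne_one (j : ℕ) : (0 : ℂ) - j ≠ 1 := by
  intro h
  have h1 := congrArg Complex.re h
  simp only [Complex.sub_re, Complex.zero_re, Complex.natCast_re, Complex.one_re] at h1
  have : (0 : ℝ) ≤ j := Nat.cast_nonneg j
  linarith

theorem lead_exists (j : ℕ) (hbot : 𝔣 ≠ ⊥) (htop : 𝔣 ≠ ⊤) {A : Ideal (𝓞 K) → G}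
    (hA : IsArt 𝔣 P A) (χ : G →* ℂˣ) :
    ∃ (m : ℕ) (c : ℂ), ∀ Z, IsLC 𝔣 A χ Z → LeadAt j Z m c := by
  obtain ⟨Φ, hΦ, hmer⟩ := lc_exists hbot htop hA χ
  have hshift : AnalyticAt ℂ (fun s : ℂ => Φ (s - j)) 0 := by
    have h1 : AnalyticAt ℂ (fun s : ℂ => s - j) 0 := analyticAt_id.sub analyticAt_const
    exact AnalyticAt.fun_comp (g := Φ) (f := fun s : ℂ => s - j) (hΦ.1 _ (sub_ne_one j)) h1
  have hne : analyticOrderAt (fun s : ℂ => Φ (s - j)) 0 ≠ ⊤ := by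
    intro htopo
    rw [analyticOrderAt_eq_top] at htopo
    have hχ := chi_isRay htop hA χ
    have hle := norm_char_le P hbot htop hχ
    have h6 : Φ =ᶠ[𝓝 (0 - (j : ℂ))] fun _ => (0 : ℂ) := by
      have h7 : Tendsto (fun z : ℂ => z + j) (𝓝 (0 - (j : ℂ))) (𝓝 0) := by
        have h8 : Continuous fun z : ℂ => z + j := continuous_id.add continuous_const
        have h9 := h8.tendsto (0 - (j : ℂ))
        simpa using h9
      filter_upwards [h7.eventually htopo] with z hz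
      rwa [add_sub_cancel_right] at hz
    have h7 : Set.EqOn Φ (fun _ => (0 : ℂ)) ({1}ᶜ : Set ℂ) :=
      AnalyticOnNhd.eqOn_of_preconnected_of_eventuallyEq (z₀ := 0 - (j : ℂ))
        (fun s hs => hΦ.1 s hs) (fun s _ => analyticAt_const) pre_one (sub_ne_one j) h6
    have h8 : Φ 2 = 0 := h7 (by simp)
    have h9 : (1 : ℝ) < (2 : ℂ).re := by norm_num
    have h10 : LS 𝔣 A χ 2 = LI (chi htop hA χ) 2 := by
      rw [LI_chi]
      rfl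
    rw [hΦ.2 2 h9, h10, Pool.Agent.Y772.DK.LI_eq_exp _ hle h9] at h8
    exact exp_ne_zero _ h8
  obtain ⟨m, hm⟩ := ENat.ne_top_iff_exists.1 hne
  obtain ⟨q, hq, hq0, hqg⟩ := (hshift.analyticOrderAt_eq_natCast).1 hm.symm
  refine ⟨m, q 0, fun Z hZ => ⟨hq0, q, hq, rfl, ?_⟩⟩
  have h11 : Tendsto (fun s : ℂ => s - j) (𝓝 0) (𝓝 (0 - (j : ℂ))) := by
    have h12 : Continuous fun s : ℂ => s - j := continuous_id.sub continuous_const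
    exact h12.tendsto 0
  have h13 : ∀ᶠ s : ℂ in 𝓝 0, s - (j : ℂ) ≠ 1 := h11.eventually_ne (sub_ne_one j)
  filter_upwards [hqg, h13] with s hs h14
  rw [lc_uniq hZ hΦ h14, hs, sub_zero, smul_eq_mul]

/-- the approximation of the leading coefficient at `-j` -/
noncomputable def apJ (j m : ℕ) (𝔣 : Ideal (𝓞 K)) (A : Ideal (𝓞 K) → G) (χ : G →* ℂˣ)
    (γ t : ℝ) : ℂ :=
  (t : ℂ) ^ m * exp (-(m * Pool.Agent.W187.UR.Lam γ)) *
    exp (∑ᶠ τ : G, ((χ τ : ℂˣ) : ℂ) * SJ j 𝔣 A τ γ t)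

/-- **the law for the leading coefficient at `-j`** -/
theorem lead_law_neg (j : ℕ) (hbot : 𝔣 ≠ ⊥) (htop : 𝔣 ≠ ⊤) {A : Ideal (𝓞 K) → G}
    (hA : IsArt 𝔣 P A) (χ : G →* ℂˣ) {Z : ℂ → ℂ} (hZ : IsLC 𝔣 A χ Z) {m : ℕ} {c : ℂ}
    (hm : LeadAt j Z m c) {γ : ℝ} (hγ : Real.pi / 2 < γ) :
    (fun t : ℝ => apJ j m 𝔣 A χ γ t - c) =O[atTop] fun t : ℝ => 1 / t := by
  obtain ⟨Φ, hΦ, hmer⟩ := lc_exists hbot htop hA χ
  obtain ⟨-, g, hg, rfl, hgZ⟩ := hm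
  have hχ := chi_isRay htop hA χ
  have hle := norm_char_le P hbot htop hχ
  have h11 : Tendsto (fun s : ℂ => s - j) (𝓝 0) (𝓝 (0 - (j : ℂ))) := by
    have h12 : Continuous fun s : ℂ => s - j := continuous_id.sub continuous_const
    exact h12.tendsto 0
  have h13 : ∀ᶠ s : ℂ in 𝓝 0, s - (j : ℂ) ≠ 1 := h11.eventually_ne (sub_ne_one j)
  have hgΦ : ∀ᶠ s in 𝓝 (0 : ℂ), Φ (s - j) = s ^ m * g s := by
    filter_upwards [hgZ, h13] with s h14 h15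
    rw [← lc_uniq hZ hΦ h15, h14]
  have hlaw := gen_law (lam := lg (K := K)) (c := cj j (ee (chi htop hA χ)))
    (Φ := fun z => Φ (z - j)) (A := (j : ℝ) + 1) (by positivity) lg_nonneg
    (fun σ hσ => by
      have h1 := ee_summable hle (σ := σ - j) (by linarith)
      exact h1.congr fun 𝔞 => (cj_norm j (ee_zero _) σ 𝔞).symm)
    (fun x _ => by
      have h1 : AnalyticAt ℂ (fun s : ℂ => s - j) (x : ℂ) := analyticAt_id.sub analyticAt_const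
      exact MeromorphicAt.comp_analyticAt (f := Φ) (g := fun s : ℂ => s - j) (hmer _) h1)
    (fun w hw => by
      have hw' : 1 < (w - j).re := by
        rw [Complex.sub_re, Complex.natCast_re]
        linarith
      show Φ (w - j) = _
      have h10 : LS 𝔣 A χ (w - j) = LI (chi htop hA χ) (w - j) := by
        rw [LI_chi]
        rfl
      rw [hΦ.2 _ hw', h10, Pool.Agent.Y772.DK.LI_eq_exp _ hle hw', LA_eq_cser,
        cj_cser j (ee_zero _)]) hγ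
  obtain ⟨m', r, C, T₀, hm', hr, h⟩ := hlaw
  have h2 := coef_of_law hg hgΦ hm' hr h
  refine h2.congr' ?_ EventuallyEq.rfl
  filter_upwards [eventually_gt_atTop 0] with t ht
  have h3 := SJ_chi j htop hA χ γ ht
  unfold apJ
  rw [h3]

end Pool.Agent.Run7.h767.ST
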