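import Pool.Agent.Run7.h767.ST.Gal

/-! # The limit formula for one character -/

set_option autoImplicit false
set_option linter.unusedSectionVars false

open NumberField Complex Filter Topology Asymptotics

namespace Pool.Agent.Run7.h767.ST

open Pool.Agent.Y773 (LI)

variable {K : Type} [Field K] [NumberField K]

variable {G : Type} [Group G] [Finite G] {𝔣 : Ideal (𝓞 K)} {P : Set (K →+* ℝ)}

lemma SX_chi (htop : 𝔣 ≠ ⊤) {A : Ideal (𝓞 K) → G} (hA : IsArt 𝔣 P A) (ψ : G →* ℂˣ) (γ : ℝ) {T : ℝ}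
    (hT : 0 < T) :
    SX (chi htop hA ψ) γ T = ∑ᶠ τ : G, ((ψ τ : ℂˣ) : ℂ) * SG 𝔣 A τ γ T := by
  have := Fintype.ofFinite G
  rw [finsum_eq_sum_of_fintype]
  unfold SX
  rw [tsum_congr fun 𝔞 => rterm_eq (chi htop hA ψ) γ T 𝔞,
    tsum_chi htop hA ψ (tm_summable γ hT)]
  rfl

lemma LI_chi (htop : 𝔣 ≠ ⊤) {A : Ideal (𝓞 K) → G} (hA : IsArt 𝔣 P A) (ψ : G →* ℂˣ) (s : ℂ) :
    LI (chi htop hA ψ) s = ∑' 𝔞 : {𝔞 : Ideal (𝓞 K) // IsCoprime 𝔞 𝔣},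
      ((ψ (A 𝔞.1) : ℂˣ) : ℂ) * ((Ideal.absNorm 𝔞.1 : ℕ) : ℂ) ^ (-s) := by
  unfold LI
  rw [← tsum_subtype_eq_of_support_subset (s := {𝔞 : Ideal (𝓞 K) | IsCoprime 𝔞 𝔣})]
  · refine tsum_congr fun 𝔞 => ?_
    rw [chi_apply htop hA ψ 𝔞.2]
  · intro 𝔞 h
    rw [Function.mem_support] at h
    by_contra hc
    apply h
    have hc' : ¬ IsCoprime 𝔞 𝔣 := hc
    rw [chi_zero htop hA ψ hc', zero_mul]

theorem main_chi (hK : (∃ w : InfinitePlace K, w.IsComplex) ∨ P ≠ Set.univ) (hbot : 𝔣 ≠ ⊥)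
    (htop : 𝔣 ≠ ⊤) {A : Ideal (𝓞 K) → G} (hA : IsArt 𝔣 P A) (ψ : G →* ℂˣ) :
    ∃ Z : ℂ → ℂ, (∀ s : ℂ, s ≠ 1 → AnalyticAt ℂ Z s) ∧ (∀ s : ℂ, MeromorphicAt Z s) ∧
      (∀ s : ℂ, 1 < s.re → Z s = ∑' 𝔞 : {𝔞 : Ideal (𝓞 K) // IsCoprime 𝔞 𝔣},
        ((ψ (A 𝔞.1) : ℂˣ) : ℂ) * ((Ideal.absNorm 𝔞.1 : ℕ) : ℂ) ^ (-s)) ∧ Z 0 = 0 ∧
      ∀ γ : ℝ, Real.pi / 2 < γ →
        (fun T : ℝ => T * exp (-Pool.Agent.W187.UR.Lam γ) *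
          exp (∑ᶠ τ : G, ((ψ τ : ℂˣ) : ℂ) * SG 𝔣 A τ γ T) - deriv Z 0)
            =O[atTop] fun T : ℝ => 1 / T := by
  obtain ⟨Z, h1, h2, h3, h4, h5⟩ := law_char hK hbot htop (chi_isRay htop hA ψ)
  refine ⟨Z, h1, h2, fun s hs => by rw [h3 s hs, LI_chi], h4, fun γ hγ => ?_⟩
  refine (h5 γ hγ).congr' ?_ EventuallyEq.rfl
  filter_upwards [eventually_gt_atTop 0] with T hT
  rw [SX_chi htop hA ψ γ hT]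

end Pool.Agent.Run7.h767.ST
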