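import Pool.Agent.Run7.h767.ST.Clp

/-! # The characters of the ray class group modulo `𝔣` and a set `P` of real embeddings, as functions
on the ideals -/

set_option autoImplicit false
set_option linter.unusedSectionVars false

open NumberField

namespace Pool.Agent.Run7.h767.ST

open Pool.Agent.Y773 (TPos)

variable {K : Type} [Field K] [NumberField K]

/-- `χ` is a character of the ray class group modulo `𝔣 P`, as a function on the ideals (zero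
exactly on the ideals which are not prime to `𝔣`) -/
def IsRayChar (𝔣 : Ideal (𝓞 K)) (P : Set (K →+* ℝ)) (χ : Ideal (𝓞 K) →*₀ ℂ) : Prop :=
  (∀ 𝔞, χ 𝔞 ≠ 0 ↔ IsCoprime 𝔞 𝔣) ∧
    ∀ x : 𝓞 K, x - 1 ∈ 𝔣 → PPos P x → χ (Ideal.span {x}) = 1

/-- `(x) 𝔞 = (y) 𝔟` with `P`-positive `x, y ≡ 1 mod 𝔣` -/
def SameClass (𝔣 : Ideal (𝓞 K)) (P : Set (K →+* ℝ)) (𝔞 𝔟 : Ideal (𝓞 K)) : Prop :=
  ∃ x y : 𝓞 K, (x - 1 ∈ 𝔣 ∧ PPos P x) ∧ (y - 1 ∈ 𝔣 ∧ PPos P y) ∧
    Ideal.span {x} * 𝔞 = Ideal.span {y} * 𝔟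

lemma SameClass.refl (𝔣 : Ideal (𝓞 K)) (P : Set (K →+* ℝ)) (𝔞 : Ideal (𝓞 K)) :
    SameClass 𝔣 P 𝔞 𝔞 :=
  ⟨1, 1, ⟨by rw [sub_self]; exact zero_mem _, ppos_one⟩,
    ⟨by rw [sub_self]; exact zero_mem _, ppos_one⟩, rfl⟩

lemma SameClass.cop {𝔣 : Ideal (𝓞 K)} {P : Set (K →+* ℝ)} {𝔞 𝔟 : Ideal (𝓞 K)}
    (h : SameClass 𝔣 P 𝔞 𝔟) (hb : IsCoprime 𝔟 𝔣) :
    IsCoprime 𝔞 𝔣 := by
  obtain ⟨x, y, hx, hy, h⟩ := h
  have h1 : IsCoprime (Ideal.span {x} * 𝔞) 𝔣 := by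
    rw [h]
    exact IsCoprime.mul_left (cop_one hy.1) hb
  exact (IsCoprime.mul_left_iff.1 h1).2

section

variable {𝔣 : Ideal (𝓞 K)} (P : Set (K →+* ℝ)) (hbot : 𝔣 ≠ ⊥) (htop : 𝔣 ≠ ⊤)

lemma sameClass_iff {𝔞 𝔟 : Ideal (𝓞 K)} (ha : IsCoprime 𝔞 𝔣) (hb : IsCoprime 𝔟 𝔣) :
    SameClass 𝔣 P 𝔞 𝔟 ↔ cls (pi1p P htop) ⟨𝔞, ha⟩ = cls (pi1p P htop) ⟨𝔟, hb⟩ := by
  have := Mq_cancel htop
  constructor
  · rintro ⟨x, y, hx, hy, h⟩
    refine cls_of_mul (a := (⟨x, hx⟩ : T1p P htop)) (b := (⟨y, hy⟩ : T1p P htop)) ?_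
    apply Subtype.ext
    exact h
  · intro h
    obtain ⟨a, b, hab⟩ := cls_eq h
    exact ⟨a, b, a.2, b.2, congrArg Subtype.val hab⟩

/-- the character of the ideals -/
noncomputable def toChar (lam : Cls (pi1p P htop) →* ℂˣ) : Ideal (𝓞 K) →*₀ ℂ :=
  ofM' htop (lam.comp (cls (pi1p P htop)))

lemma toChar_apply (lam : Cls (pi1p P htop) →* ℂˣ) {𝔞 : Ideal (𝓞 K)} (h : IsCoprime 𝔞 𝔣) :
    toChar P htop lam 𝔞 = ((lam (cls (pi1p P htop) ⟨𝔞, h⟩) : ℂˣ) : ℂ) := ofM'_pos htop _ h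

lemma toChar_supp (lam : Cls (pi1p P htop) →* ℂˣ) (𝔞 : Ideal (𝓞 K)) :
    toChar P htop lam 𝔞 ≠ 0 ↔ IsCoprime 𝔞 𝔣 := ofM'_supp htop _ 𝔞

lemma toChar_isRay (lam : Cls (pi1p P htop) →* ℂˣ) : IsRayChar 𝔣 P (toChar P htop lam) := by
  refine ⟨toChar_supp P htop lam, fun x hx hp => ?_⟩
  rw [toChar_apply P htop lam (cop_one hx)]
  have h1 : cls (pi1p P htop) ⟨Ideal.span {x}, cop_one hx⟩ = 1 :=
    cls_pi (pi1p P htop) (⟨x, hx, hp⟩ : T1p P htop)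
  rw [h1, map_one, Units.val_one]

include hbot in
lemma toChar_inj : Function.Injective (toChar (K := K) P htop) := by
  intro l l' h
  refine MonoidHom.ext fun c => ?_
  obtain ⟨𝔞, rfl⟩ := exists_rep_p P hbot htop c
  have h1 := DFunLike.congr_fun h (𝔞 : Ideal (𝓞 K))
  rw [toChar_apply P htop l (Mq_cop 𝔞), toChar_apply P htop l' (Mq_cop 𝔞)] at h1
  exact Units.ext h1

lemma exists_toChar {χ : Ideal (𝓞 K) →*₀ ℂ} (hχ : IsRayChar 𝔣 P χ) :
    ∃ lam, toChar P htop lam = χ := by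
  classical
  let F : Mq 𝔣 →* ℂˣ :=
    { toFun := fun 𝔞 => Units.mk0 (χ 𝔞) ((hχ.1 _).2 (Mq_cop 𝔞))
      map_one' := by
        ext
        exact map_one χ
      map_mul' := fun a b => by
        ext
        simp }
  obtain ⟨lam, hlam⟩ := exists_lam (pi1p P htop) F 1 (fun a => by
    ext
    change χ (Ideal.span {(a : 𝓞 K)}) = _
    rw [hχ.2 _ (a.2.1) (a.2.2)]
    simp)
  refine ⟨lam, ?_⟩
  ext 𝔞
  by_cases h : IsCoprime 𝔞 𝔣
  · rw [toChar_apply P htop lam h]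
    have h1 := hlam ⟨𝔞, h⟩
    rw [MonoidHom.one_apply, one_mul] at h1
    rw [← h1]
    rfl
  · have h1 : χ 𝔞 = 0 := by
      by_contra h2
      exact h ((hχ.1 _).1 h2)
    have h3 : toChar P htop lam 𝔞 = 0 := by
      by_contra h2
      exact h ((toChar_supp P htop lam 𝔞).1 h2)
    rw [h1, h3]

lemma range_toChar : Set.range (toChar (K := K) P htop) = {χ | IsRayChar 𝔣 P χ} := by
  ext χ
  constructor
  · rintro ⟨lam, rfl⟩
    exact toChar_isRay P htop lam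
  · exact fun h => exists_toChar P htop h

include hbot htop in
lemma rayChar_finite : {χ : Ideal (𝓞 K) →*₀ ℂ | IsRayChar 𝔣 P χ}.Finite := by
  have := cls_finite_p P hbot htop
  have := finite_dual (Cls (pi1p P htop))
  rw [← range_toChar P htop]
  exact Set.finite_range _

include hbot in
lemma finsum_char (f : (Ideal (𝓞 K) →*₀ ℂ) → ℂ) [Fintype (Cls (pi1p P htop) →* ℂˣ)] :
    ∑ᶠ χ ∈ {χ : Ideal (𝓞 K) →*₀ ℂ | IsRayChar 𝔣 P χ}, f χ = ∑ lam, f (toChar P htop lam) := by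
  rw [← range_toChar P htop, finsum_mem_range (toChar_inj P hbot htop), finsum_eq_sum_of_fintype]

include hbot in
lemma card_char : Set.ncard {χ : Ideal (𝓞 K) →*₀ ℂ | IsRayChar 𝔣 P χ} =
    Nat.card (Cls (pi1p P htop)) := by
  have := cls_finite_p P hbot htop
  rw [← range_toChar P htop, ← Set.image_univ,
    Set.ncard_image_of_injective _ (toChar_inj P hbot htop), Set.ncard_univ, card_dual]

include hbot htop in
lemma card_char_pos : 0 < Set.ncard {χ : Ideal (𝓞 K) →*₀ ℂ | IsRayChar 𝔣 P χ} := by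
  have := cls_finite_p P hbot htop
  rw [card_char P hbot htop]
  exact Nat.card_pos

lemma norm_one_of_finite {G : Type} [CommGroup G] [Finite G] (lam : G →* ℂˣ) (g : G) :
    ‖((lam g : ℂˣ) : ℂ)‖ = 1 := by
  refine Complex.norm_eq_one_of_pow_eq_one (n := Nat.card G) ?_ Nat.card_pos.ne'
  rw [← Units.val_pow_eq_pow_val, ← map_pow, pow_card_eq_one', map_one, Units.val_one]

include hbot htop in
lemma norm_char_le {χ : Ideal (𝓞 K) →*₀ ℂ} (hχ : IsRayChar 𝔣 P χ) (𝔞 : Ideal (𝓞 K)) :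
    ‖χ 𝔞‖ ≤ 1 := by
  have := cls_finite_p P hbot htop
  obtain ⟨lam, rfl⟩ := exists_toChar P htop hχ
  by_cases h : IsCoprime 𝔞 𝔣
  · rw [toChar_apply P htop lam h, norm_one_of_finite]
  · have h3 : toChar P htop lam 𝔞 = 0 := by
      by_contra h2
      exact h ((toChar_supp P htop lam 𝔞).1 h2)
    rw [h3, norm_zero]
    exact zero_le_one

open Classical in
lemma sum_dual (G : Type) [CommGroup G] [Finite G] [Fintype (G →* ℂˣ)] (g : G) :
    ∑ lam : G →* ℂˣ, ((lam g : ℂˣ) : ℂ) = if g = 1 then (Nat.card G : ℂ) else 0 := by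
  split_ifs with h
  · subst h
    simp only [map_one, Units.val_one, Finset.sum_const, Finset.card_univ, nsmul_eq_mul, mul_one]
    rw [← Nat.card_eq_fintype_card, card_dual]
  · have : NeZero (Monoid.exponent G) := ⟨Monoid.exponent_ne_zero_of_finite⟩
    obtain ⟨φ, hφ⟩ := CommGroup.exists_apply_ne_one_of_hasEnoughRootsOfUnity G ℂ h
    have h1 : ((φ g : ℂˣ) : ℂ) * ∑ lam : G →* ℂˣ, ((lam g : ℂˣ) : ℂ) =
        ∑ lam : G →* ℂˣ, ((lam g : ℂˣ) : ℂ) := by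
      rw [Finset.mul_sum]
      refine Fintype.sum_equiv (Equiv.mulLeft φ) _ _ fun lam => ?_
      rw [Equiv.coe_mulLeft, MonoidHom.mul_apply, Units.val_mul]
    have h2 : (((φ g : ℂˣ) : ℂ) - 1) * ∑ lam : G →* ℂˣ, ((lam g : ℂˣ) : ℂ) = 0 := by
      rw [sub_mul, h1, one_mul, sub_self]
    rcases mul_eq_zero.1 h2 with h3 | h3
    · exfalso
      apply hφ
      ext
      rw [Units.val_one]
      exact sub_eq_zero.1 h3
    · exact h3

open Classical in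
include hbot htop in
/-- orthogonality -/
lemma orth {𝔟 : Ideal (𝓞 K)} (hb : IsCoprime 𝔟 𝔣) (𝔞 : Ideal (𝓞 K)) :
    ∑ᶠ χ ∈ {χ : Ideal (𝓞 K) →*₀ ℂ | IsRayChar 𝔣 P χ}, (starRingEnd ℂ) (χ 𝔟) * χ 𝔞 =
      if SameClass 𝔣 P 𝔞 𝔟 then (Set.ncard {χ : Ideal (𝓞 K) →*₀ ℂ | IsRayChar 𝔣 P χ} : ℂ) else 0 := by
  have := cls_finite_p P hbot htop
  have := finite_dual (Cls (pi1p P htop))
  have := Fintype.ofFinite (Cls (pi1p P htop) →* ℂˣ)
  rw [finsum_char P hbot htop, card_char P hbot htop]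
  by_cases h : IsCoprime 𝔞 𝔣
  · rw [sameClass_iff P htop h hb]
    have h1 : ∀ lam : Cls (pi1p P htop) →* ℂˣ,
        (starRingEnd ℂ) (toChar P htop lam 𝔟) * toChar P htop lam 𝔞 =
          ((lam (cls (pi1p P htop) ⟨𝔞, h⟩ * (cls (pi1p P htop) ⟨𝔟, hb⟩)⁻¹) : ℂˣ) : ℂ) := by
      intro lam
      rw [toChar_apply P htop lam h, toChar_apply P htop lam hb, map_mul, map_inv, Units.val_mul,
        Units.val_inv_eq_inv_val, mul_comm, Complex.inv_def, Complex.normSq_eq_norm_sq,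
        norm_one_of_finite]
      simp
    rw [Finset.sum_congr rfl fun lam _ => h1 lam, sum_dual]
    simp only [mul_inv_eq_one]
    split_ifs <;> rfl
  · rw [if_neg fun h1 => h (h1.cop hb)]
    refine Finset.sum_eq_zero fun lam _ => ?_
    have h3 : toChar P htop lam 𝔞 = 0 := by
      by_contra h2
      exact h ((toChar_supp P htop lam 𝔞).1 h2)
    rw [h3, mul_zero]

end

end Pool.Agent.Run7.h767.ST
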