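import Pool.Agent.Run7.h767.ST.Cls

/-! # Ray classes modulo `𝔮` and a set `P` of real embeddings -/

set_option autoImplicit false
set_option linter.unusedSectionVars false

open NumberField

namespace Pool.Agent.Run7.h767.ST

open Pool.Agent.Y773 (TPos)
open Algebra (GrothendieckGroup)

section

variable {K : Type} [Field K] [NumberField K]

/-- `x` is positive at the real embeddings in `P` -/
def PPos (P : Set (K →+* ℝ)) (x : 𝓞 K) : Prop := ∀ σ ∈ P, 0 < σ (x : K)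

lemma ppos_of_tpos {P : Set (K →+* ℝ)} {x : 𝓞 K} (h : TPos K x) : PPos P x := fun σ _ => h σ

lemma ppos_one {P : Set (K →+* ℝ)} : PPos P (1 : 𝓞 K) := ppos_of_tpos tpos_one

lemma ppos_mul {P : Set (K →+* ℝ)} {x y : 𝓞 K} (hx : PPos P x) (hy : PPos P y) :
    PPos P (x * y) := by
  intro σ hσ
  have : ((x * y : 𝓞 K) : K) = (x : K) * (y : K) := map_mul (algebraMap (𝓞 K) K) x y
  rw [this, map_mul]
  exact mul_pos (hx σ hσ) (hy σ hσ)

/-- `P`-positive integers congruent to one -/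
def T1p (P : Set (K →+* ℝ)) {𝔮 : Ideal (𝓞 K)} (_h : 𝔮 ≠ ⊤) : Submonoid (𝓞 K) where
  carrier := {x | x - 1 ∈ 𝔮 ∧ PPos P x}
  mul_mem' {x y} hx hy := by
    refine ⟨?_, ppos_mul hx.2 hy.2⟩
    have : x * y - 1 = (x - 1) * y + (y - 1) := by ring
    rw [this]
    exact add_mem (Ideal.mul_mem_right _ _ hx.1) hy.1
  one_mem' := by
    refine ⟨?_, ppos_one⟩
    rw [sub_self]; exact zero_mem _

variable (P : Set (K →+* ℝ))

lemma T1p_cop {𝔮 : Ideal (𝓞 K)} {h : 𝔮 ≠ ⊤} (x : T1p P h) :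
    IsCoprime (Ideal.span {(x : 𝓞 K)}) 𝔮 :=
  cop_one x.2.1

/-- the principal ideals generated by `P`-positive integers congruent to one -/
def pi1p {𝔮 : Ideal (𝓞 K)} (h : 𝔮 ≠ ⊤) : T1p P h →* Mq 𝔮 where
  toFun x := ⟨Ideal.span {(x : 𝓞 K)}, T1p_cop P x⟩
  map_one' := by
    apply Subtype.ext
    change Ideal.span {(1 : 𝓞 K)} = 1
    rw [Ideal.span_singleton_one, Ideal.one_eq_top]
  map_mul' x y := by
    apply Subtype.ext
    change Ideal.span {(x : 𝓞 K) * (y : 𝓞 K)} = _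
    rw [← Ideal.span_singleton_mul_span_singleton]
    rfl

lemma pi1p_coe {𝔮 : Ideal (𝓞 K)} {h : 𝔮 ≠ ⊤} (x : T1p P h) :
    ((pi1p P h x : Mq 𝔮) : Ideal (𝓞 K)) = Ideal.span {(x : 𝓞 K)} := rfl

lemma exists_rep_p {𝔮 : Ideal (𝓞 K)} (hbot : 𝔮 ≠ ⊥) (htop : 𝔮 ≠ ⊤) (c : Cls (pi1p P htop)) :
    ∃ 𝔞 : Mq 𝔮, cls (pi1p P htop) 𝔞 = c := by
  obtain ⟨a, b, hab⟩ := cls_div (pi1p P htop) c
  obtain ⟨x, 𝔠, h1, hp, h2, h3⟩ := exists_mem_one_tp (Mq_cop b) (Mq_ne_bot htop b) hbot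
  refine ⟨a * ⟨𝔠, h3⟩, ?_⟩
  have h4 : cls (pi1p P htop) b * cls (pi1p P htop) ⟨𝔠, h3⟩ = 1 := by
    rw [← map_mul, ← cls_pi (pi1p P htop) ⟨x, h1, ppos_of_tpos hp⟩]
    congr 1
    apply Subtype.ext
    rw [pi1p_coe, Submonoid.coe_mul]
    exact h2.symm
  rw [map_mul, ← hab, mul_assoc, h4, mul_one]

theorem cls_finite_p {𝔮 : Ideal (𝓞 K)} (hbot : 𝔮 ≠ ⊥) (htop : 𝔮 ≠ ⊤) :
    Finite (Cls (pi1p P htop)) := by
  have := cls_finite (K := K) hbot htop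
  have := Mq_cancel htop
  choose rep hrep using exists_rep_p P hbot htop
  refine Finite.of_injective (fun c => cls (pi1 htop) (rep c)) fun c c' h => ?_
  obtain ⟨a, b, hab⟩ := cls_eq (π := pi1 htop) h
  rw [← hrep c, ← hrep c']
  refine cls_of_mul (π := pi1p P htop) (a := ⟨a, a.2.1, ppos_of_tpos a.2.2⟩)
    (b := ⟨b, b.2.1, ppos_of_tpos b.2.2⟩) ?_
  exact hab

end

end Pool.Agent.Run7.h767.ST
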