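import Pool.Agent.Y773.HK.Defs

/-! # Narrow ray classes modulo `𝔮` and their characters

Part of the library of helper767, helper773, helper784 and helper772 (`Y767/HC/Grp`, `Y773/IQ/Ray`,
`N784/AD/Ray`, `N784/AD/Cl`, `Y772/TW/Pos`), copied here with short imports. -/

set_option autoImplicit false
set_option linter.unusedSectionVars false

open NumberField

namespace Pool.Agent.Run7.h767.ST

open Pool.Agent.Y773 (TPos)
open Algebra (GrothendieckGroup)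

section mon

variable {T M : Type} [CommMonoid T] [CommMonoid M]

/-- the map of the Grothendieck groups -/
noncomputable def grm (π : T →* M) : GrothendieckGroup T →* GrothendieckGroup M :=
  GrothendieckGroup.lift (GrothendieckGroup.of.comp π)

lemma gr_exists (x : GrothendieckGroup M) : ∃ a b : M,
    x * GrothendieckGroup.of b = GrothendieckGroup.of a := by
  induction x using Localization.induction_on with
  | H y =>
    obtain ⟨m, s⟩ := y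
    refine ⟨m, s, ?_⟩
    rw [Localization.mk_eq_monoidOf_mk']
    exact Submonoid.LocalizationMap.mk'_spec _ m s

lemma grm_of (π : T →* M) (a : T) :
    grm π (GrothendieckGroup.of a) = GrothendieckGroup.of (π a) := by
  unfold grm
  have := DFunLike.congr_fun (GrothendieckGroup.lift.symm_apply_apply
    (GrothendieckGroup.of.comp π)) a
  exact this

/-- the class group of a pair -/
abbrev Cls (π : T →* M) : Type := GrothendieckGroup M ⧸ (grm π).range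

/-- the class of an element -/
noncomputable def cls (π : T →* M) : M →* Cls π :=
  (QuotientGroup.mk' (grm π).range).comp GrothendieckGroup.of

lemma cls_eq [IsCancelMul M] {π : T →* M} {x y : M} (h : cls π x = cls π y) :
    ∃ a b : T, π a * x = π b * y := by
  unfold cls at h
  rw [MonoidHom.comp_apply, MonoidHom.comp_apply, QuotientGroup.mk'_apply, QuotientGroup.mk'_apply,
    QuotientGroup.eq, MonoidHom.mem_range] at h
  obtain ⟨g, hg⟩ := h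
  obtain ⟨a, b, hab⟩ := gr_exists g
  refine ⟨a, b, GrothendieckGroup.of_injective ?_⟩
  have h1 : grm π g * GrothendieckGroup.of (π b) = GrothendieckGroup.of (π a) := by
    rw [← grm_of, ← grm_of, ← hab, map_mul]
  rw [hg] at h1
  rw [map_mul, map_mul, ← h1, mul_comm _ (GrothendieckGroup.of x), mul_assoc,
    mul_inv_cancel_left, mul_comm]

lemma cls_pi (π : T →* M) (a : T) : cls π (π a) = 1 := by
  unfold cls
  rw [MonoidHom.comp_apply, QuotientGroup.mk'_apply, QuotientGroup.eq_one_iff, MonoidHom.mem_range]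
  exact ⟨_, grm_of π a⟩

lemma cls_of_mul {π : T →* M} {x y : M} {a b : T} (h : π a * x = π b * y) :
    cls π x = cls π y := by
  have := congrArg (cls π) h
  rwa [map_mul, map_mul, cls_pi, cls_pi, one_mul, one_mul] at this

/-- every class is a quotient of two classes of elements -/
lemma cls_div (π : T →* M) (c : Cls π) : ∃ a b : M, c * cls π b = cls π a := by
  obtain ⟨x, rfl⟩ := QuotientGroup.mk_surjective c
  obtain ⟨a, b, hab⟩ := gr_exists x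
  refine ⟨a, b, ?_⟩
  unfold cls
  rw [MonoidHom.comp_apply, MonoidHom.comp_apply, ← hab, map_mul]
  rfl

/-- two extensions of the same character differ by a character of the class group -/
theorem exists_lam (π : T →* M) (F F' : M →* ℂˣ) (h : ∀ a, F (π a) = F' (π a)) :
    ∃ lam : Cls π →* ℂˣ, ∀ x, F x = F' x * lam (cls π x) := by
  have hl : ∀ (f : M →* ℂˣ) (a : M), GrothendieckGroup.lift f (GrothendieckGroup.of a) = f a :=
    fun f a => DFunLike.congr_fun (GrothendieckGroup.lift.symm_apply_apply f) a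
  set R : M →* ℂˣ := F / F' with hR
  have hR1 : ∀ a, R (π a) = 1 := by
    intro a
    rw [hR, MonoidHom.div_apply, h, div_self']
  have hk : (grm π).range ≤ (GrothendieckGroup.lift R).ker := by
    rintro _ ⟨g, rfl⟩
    obtain ⟨a, b, hab⟩ := gr_exists g
    have h1 : grm π g * GrothendieckGroup.of (π b) = GrothendieckGroup.of (π a) := by
      rw [← grm_of, ← grm_of, ← hab, map_mul]
    have h2 := congrArg (GrothendieckGroup.lift R) h1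
    rw [map_mul, hl, hl, hR1, hR1, mul_one] at h2
    exact h2
  refine ⟨QuotientGroup.lift _ (GrothendieckGroup.lift R) hk, fun x => ?_⟩
  have h3 : QuotientGroup.lift _ (GrothendieckGroup.lift R) hk (cls π x) = R x := hl R x
  rw [h3, hR, MonoidHom.div_apply, mul_div_cancel]

/-- the number of characters of a finite commutative group -/
lemma card_dual (G : Type) [CommGroup G] [Finite G] : Nat.card (G →* ℂˣ) = Nat.card G := by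
  have : NeZero (Monoid.exponent G) := ⟨Monoid.exponent_ne_zero_of_finite⟩
  exact CommGroup.card_monoidHom_of_hasEnoughRootsOfUnity G ℂ

lemma finite_dual (G : Type) [CommGroup G] [Finite G] : Finite (G →* ℂˣ) := by
  refine Nat.finite_of_card_ne_zero ?_
  rw [card_dual]
  exact Nat.card_pos.ne'

end mon

section

variable {K : Type} [Field K] [NumberField K]

lemma tpos_one : TPos K (1 : 𝓞 K) := by
  intro σ
  have : ((1 : 𝓞 K) : K) = 1 := map_one _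
  rw [this, map_one]; exact one_pos

lemma tpos_mul {x y : 𝓞 K} (hx : TPos K x) (hy : TPos K y) : TPos K (x * y) := by
  intro σ
  have : ((x * y : 𝓞 K) : K) = (x : K) * (y : K) := map_mul (algebraMap (𝓞 K) K) x y
  rw [this, map_mul]; exact mul_pos (hx σ) (hy σ)

/-- ideals prime to `𝔮` -/
def Mq (𝔮 : Ideal (𝓞 K)) : Submonoid (Ideal (𝓞 K)) where
  carrier := {𝔞 | IsCoprime 𝔞 𝔮}
  mul_mem' hx hy := IsCoprime.mul_left hx hy
  one_mem' := isCoprime_one_left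

lemma Mq_cop {𝔮 : Ideal (𝓞 K)} (x : Mq 𝔮) : IsCoprime (x : Ideal (𝓞 K)) 𝔮 := x.2

lemma Mq_ne_bot {𝔮 : Ideal (𝓞 K)} (h𝔮 : 𝔮 ≠ ⊤) (x : Mq 𝔮) : (x : Ideal (𝓞 K)) ≠ ⊥ := by
  intro h
  have := x.2
  change IsCoprime (x : Ideal (𝓞 K)) 𝔮 at this
  rw [h, Ideal.isCoprime_iff_sup_eq, bot_sup_eq] at this
  exact h𝔮 this

lemma Mq_cancel {𝔮 : Ideal (𝓞 K)} (h𝔮 : 𝔮 ≠ ⊤) : IsCancelMul (Mq 𝔮) where
  mul_left_cancel x y z h := by
    apply Subtype.ext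
    have h1 := congrArg (Subtype.val) h
    exact mul_left_cancel₀ (Mq_ne_bot h𝔮 x) h1
  mul_right_cancel x y z h := by
    apply Subtype.ext
    have h1 := congrArg (Subtype.val) h
    exact mul_right_cancel₀ (Mq_ne_bot h𝔮 x) h1

lemma isUnit_mk {𝔮 : Ideal (𝓞 K)} {x : 𝓞 K} (h : IsCoprime (Ideal.span {x}) 𝔮) :
    IsUnit (Ideal.Quotient.mk 𝔮 x) := by
  obtain ⟨a, ha, b, hb, hab⟩ := (Ideal.isCoprime_iff_exists).1 h
  obtain ⟨c, rfl⟩ := Ideal.mem_span_singleton'.mp ha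
  refine IsUnit.of_mul_eq_one (Ideal.Quotient.mk 𝔮 c) ?_
  rw [← map_mul, mul_comm, ← sub_eq_zero, ← map_one (Ideal.Quotient.mk 𝔮), ← map_sub,
    Ideal.Quotient.eq_zero_iff_mem]
  have : c * x - 1 = -b := by rw [← hab]; ring
  rw [this]; exact neg_mem hb

lemma coprime_of_isUnit {𝔮 : Ideal (𝓞 K)} {x : 𝓞 K} (h : IsUnit (Ideal.Quotient.mk 𝔮 x)) :
    IsCoprime (Ideal.span {x}) 𝔮 := by
  obtain ⟨v, hv⟩ := h.exists_right_inv
  obtain ⟨c, rfl⟩ := Ideal.Quotient.mk_surjective v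
  rw [Ideal.isCoprime_iff_exists]
  refine ⟨x * c, Ideal.mul_mem_right _ _ (Ideal.mem_span_singleton_self x), 1 - x * c, ?_, by ring⟩
  rw [← Ideal.Quotient.eq_zero_iff_mem, map_sub, map_mul, hv, map_one, sub_self]

/-- adding a large multiple of an integer -/
lemma exists_tpos (x : 𝓞 K) {c : ℕ} (hc : 0 < c) :
    ∃ k : ℕ, TPos K (x + (k : 𝓞 K) * (c : 𝓞 K)) ∧ x + (k : 𝓞 K) * (c : 𝓞 K) ≠ 0 := by
  classical
  have hfin : Finite (K →+* ℝ) := by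
    refine Finite.of_injective (fun σ : K →+* ℝ => (Complex.ofRealHom.comp σ : K →+* ℂ)) ?_
    intro σ τ h
    ext y
    have h1 := congrArg (fun f : K →+* ℂ => f y) h
    exact Complex.ofReal_injective h1
  have hft : Fintype (K →+* ℝ) := Fintype.ofFinite _
  obtain ⟨k, hk⟩ := exists_nat_gt (∑ σ : K →+* ℝ, |σ (x : K)|)
  have hpos : ∀ l : ℕ, k ≤ l → TPos K (x + (l : 𝓞 K) * (c : 𝓞 K)) := by
    intro l hl σ
    have h1 : |σ (x : K)| ≤ ∑ σ : K →+* ℝ, |σ (x : K)| :=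
      Finset.single_le_sum (f := fun σ : K →+* ℝ => |σ (x : K)|)
        (fun _ _ => abs_nonneg _) (Finset.mem_univ σ)
    push_cast
    rw [map_add, map_mul, map_natCast, map_natCast]
    have h2 := neg_abs_le (σ (x : K))
    have h3 : (1 : ℝ) ≤ c := by exact_mod_cast hc
    have h4 : (k : ℝ) ≤ l := by exact_mod_cast hl
    have h5 : (0 : ℝ) ≤ l := Nat.cast_nonneg l
    nlinarith
  by_cases h0 : x + (k : 𝓞 K) * (c : 𝓞 K) = 0
  · refine ⟨k + 1, hpos _ (Nat.le_succ k), ?_⟩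
    intro h1
    have h2 : (c : 𝓞 K) = 0 := by
      push_cast at h1
      linear_combination h1 - h0
    exact hc.ne' (by exact_mod_cast h2)
  · exact ⟨k, hpos _ le_rfl, h0⟩

lemma ne_zero_of_cop {𝔮 : Ideal (𝓞 K)} (h𝔮 : 𝔮 ≠ ⊤) {x : 𝓞 K} (h : IsCoprime (Ideal.span {x}) 𝔮) :
    x ≠ 0 := by
  rintro rfl
  rw [Ideal.span_singleton_eq_bot.mpr rfl, Ideal.isCoprime_iff_sup_eq, bot_sup_eq] at h
  exact h𝔮 h

lemma cop_one {𝔮 : Ideal (𝓞 K)} {x : 𝓞 K} (h : x - 1 ∈ 𝔮) : IsCoprime (Ideal.span {x}) 𝔮 := by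
  rw [Ideal.isCoprime_iff_exists]
  exact ⟨x, Ideal.mem_span_singleton_self x, 1 - x, by rw [← neg_sub]; exact neg_mem h, by ring⟩

lemma cop_congr {𝔮 : Ideal (𝓞 K)} {x y : 𝓞 K} (h : x - y ∈ 𝔮) (hy : IsCoprime (Ideal.span {y}) 𝔮) :
    IsCoprime (Ideal.span {x}) 𝔮 := by
  apply coprime_of_isUnit
  rw [(Ideal.Quotient.eq).mpr h]
  exact isUnit_mk hy

lemma cop_mul {𝔮 : Ideal (𝓞 K)} {x y : 𝓞 K} (hx : IsCoprime (Ideal.span {x}) 𝔮)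
    (hy : IsCoprime (Ideal.span {y}) 𝔮) : IsCoprime (Ideal.span {x * y}) 𝔮 := by
  rw [← Ideal.span_singleton_mul_span_singleton]
  exact IsCoprime.mul_left hx hy

lemma exists_inv {𝔮 : Ideal (𝓞 K)} {x : 𝓞 K} (h : IsCoprime (Ideal.span {x}) 𝔮) :
    ∃ w : 𝓞 K, w * x - 1 ∈ 𝔮 := by
  obtain ⟨v, hv⟩ := (isUnit_mk h).exists_left_inv
  obtain ⟨w, rfl⟩ := Ideal.Quotient.mk_surjective v
  refine ⟨w, ?_⟩
  rw [← Ideal.Quotient.eq, map_mul, hv, map_one]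

lemma absNorm_pos' {𝔮 : Ideal (𝓞 K)} (h : 𝔮 ≠ ⊥) : 0 < Ideal.absNorm 𝔮 :=
  Nat.pos_of_ne_zero (by rwa [Ne, Ideal.absNorm_eq_zero_iff])

/-- totally positive representatives -/
lemma exists_tp (x : 𝓞 K) {𝔪 : Ideal (𝓞 K)} (h : 𝔪 ≠ ⊥) : ∃ x' : 𝓞 K, TPos K x' ∧ x' - x ∈ 𝔪 := by
  obtain ⟨k, hk, -⟩ := exists_tpos x (absNorm_pos' h)
  refine ⟨_, hk, ?_⟩
  rw [add_sub_cancel_left]
  exact Ideal.mul_mem_left _ _ (Ideal.absNorm_mem _)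

lemma exists_inv_tp {𝔮 : Ideal (𝓞 K)} (h𝔮 : 𝔮 ≠ ⊥) {x : 𝓞 K} (h : IsCoprime (Ideal.span {x}) 𝔮) :
    ∃ w : 𝓞 K, TPos K w ∧ w * x - 1 ∈ 𝔮 := by
  obtain ⟨v, hv⟩ := exists_inv h
  obtain ⟨w, hw, hwv⟩ := exists_tp v h𝔮
  refine ⟨w, hw, ?_⟩
  have : w * x - 1 = (w - v) * x + (v * x - 1) := by ring
  rw [this]
  exact add_mem (Ideal.mul_mem_right _ _ hwv) hv

lemma sq_tp {x : 𝓞 K} (hx : x ≠ 0) : TPos K (x * x) := by
  intro σ
  have h1 : ((x * x : 𝓞 K) : K) = (x : K) * (x : K) := map_mul (algebraMap (𝓞 K) K) x x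
  rw [h1, map_mul]
  have h2 : σ (x : K) ≠ 0 := by
    rw [Ne, map_eq_zero]
    exact fun h => hx (NumberField.RingOfIntegers.coe_eq_zero_iff.mp h)
  exact mul_self_pos.mpr h2

/-- the same signs at the real places -/
def SameSign (x y : 𝓞 K) : Prop := ∀ σ : K →+* ℝ, 0 < σ (x : K) ↔ 0 < σ (y : K)

lemma SameSign.mul_tp {x y : 𝓞 K} (h : SameSign x y) (hx : x ≠ 0) (hy : y ≠ 0) :
    TPos K (x * y) := by
  intro σ
  have h1 : ((x * y : 𝓞 K) : K) = (x : K) * (y : K) := map_mul (algebraMap (𝓞 K) K) x y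
  rw [h1, map_mul]
  have h2 : σ (x : K) ≠ 0 := by
    rw [Ne, map_eq_zero]
    exact fun h => hx (NumberField.RingOfIntegers.coe_eq_zero_iff.mp h)
  have h3 : σ (y : K) ≠ 0 := by
    rw [Ne, map_eq_zero]
    exact fun h => hy (NumberField.RingOfIntegers.coe_eq_zero_iff.mp h)
  by_cases hp : 0 < σ (x : K)
  · exact mul_pos hp ((h σ).mp hp)
  · have h4 : σ (x : K) < 0 := lt_of_le_of_ne (not_lt.mp hp) h2
    have h5 : ¬ 0 < σ (y : K) := fun h6 => hp ((h σ).mpr h6)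
    have h6 : σ (y : K) < 0 := lt_of_le_of_ne (not_lt.mp h5) h3
    exact mul_pos_of_neg_of_neg h4 h6

lemma exists_mem_one_tp {𝔟 𝔮 : Ideal (𝓞 K)} (h : IsCoprime 𝔟 𝔮) (h𝔟 : 𝔟 ≠ ⊥) (h𝔮 : 𝔮 ≠ ⊥) :
    ∃ (x : 𝓞 K) (𝔠 : Ideal (𝓞 K)), x - 1 ∈ 𝔮 ∧ TPos K x ∧ Ideal.span {x} = 𝔟 * 𝔠 ∧
      IsCoprime 𝔠 𝔮 := by
  obtain ⟨x₀, hx₀, b, hb, hab⟩ := Ideal.isCoprime_iff_exists.mp h
  obtain ⟨x, hx, hxx⟩ := exists_tp x₀ (mul_ne_zero h𝔟 h𝔮)
  have hx𝔟 : x ∈ 𝔟 := by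
    have : x = (x - x₀) + x₀ := by ring
    rw [this]
    exact add_mem (Ideal.mul_le_left hxx) hx₀
  have h1 : x - 1 ∈ 𝔮 := by
    have : x - 1 = (x - x₀) - b := by rw [← hab]; ring
    rw [this]
    exact sub_mem (Ideal.mul_le_right hxx) hb
  obtain ⟨𝔠, h𝔠⟩ := Ideal.dvd_iff_le.mpr ((Ideal.span_singleton_le_iff_mem 𝔟).mpr hx𝔟)
  refine ⟨x, 𝔠, h1, hx, h𝔠, ?_⟩
  have h2 := cop_one h1
  rw [h𝔠] at h2
  exact (IsCoprime.mul_left_iff.mp h2).2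

/-- totally positive integers congruent to one -/
def T1 {𝔮 : Ideal (𝓞 K)} (_h : 𝔮 ≠ ⊤) : Submonoid (𝓞 K) where
  carrier := {x | x - 1 ∈ 𝔮 ∧ TPos K x}
  mul_mem' {x y} hx hy := by
    refine ⟨?_, tpos_mul hx.2 hy.2⟩
    have : x * y - 1 = (x - 1) * y + (y - 1) := by ring
    rw [this]
    exact add_mem (Ideal.mul_mem_right _ _ hx.1) hy.1
  one_mem' := by
    refine ⟨?_, tpos_one⟩
    rw [sub_self]; exact zero_mem _

lemma T1_one {𝔮 : Ideal (𝓞 K)} {h : 𝔮 ≠ ⊤} (x : T1 h) : (x : 𝓞 K) - 1 ∈ 𝔮 := x.2.1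

lemma T1_tp {𝔮 : Ideal (𝓞 K)} {h : 𝔮 ≠ ⊤} (x : T1 h) : TPos K (x : 𝓞 K) := x.2.2

lemma T1_cop {𝔮 : Ideal (𝓞 K)} {h : 𝔮 ≠ ⊤} (x : T1 h) : IsCoprime (Ideal.span {(x : 𝓞 K)}) 𝔮 :=
  cop_one x.2.1

/-- the principal ideals generated by totally positive integers congruent to one -/
def pi1 {𝔮 : Ideal (𝓞 K)} (h : 𝔮 ≠ ⊤) : T1 h →* Mq 𝔮 where
  toFun x := ⟨Ideal.span {(x : 𝓞 K)}, T1_cop x⟩
  map_one' := by
    apply Subtype.ext
    change Ideal.span {(1 : 𝓞 K)} = 1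
    rw [Ideal.span_singleton_one, Ideal.one_eq_top]
  map_mul' x y := by
    apply Subtype.ext
    change Ideal.span {(x : 𝓞 K) * (y : 𝓞 K)} = _
    rw [← Ideal.span_singleton_mul_span_singleton]
    rfl

lemma pi1_coe {𝔮 : Ideal (𝓞 K)} {h : 𝔮 ≠ ⊤} (x : T1 h) : ((pi1 h x : Mq 𝔮) : Ideal (𝓞 K)) =
    Ideal.span {(x : 𝓞 K)} := rfl

/-- the signs at the real places -/
def sgn (x : 𝓞 K) : (K →+* ℝ) → Prop := fun σ => 0 < σ (x : K)

lemma sameSign_of_sgn {x y : 𝓞 K} (h : sgn x = sgn y) : SameSign x y := fun σ => by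
  have := congrFun h σ
  unfold sgn at this
  rw [this]

instance finite_real : Finite (K →+* ℝ) := by
  refine Finite.of_injective (fun σ : K →+* ℝ => (Complex.ofRealHom.comp σ : K →+* ℂ)) ?_
  intro σ τ h
  ext y
  have h1 := congrArg (fun f : K →+* ℂ => f y) h
  exact Complex.ofReal_injective h1

lemma cls_congr {𝔮 : Ideal (𝓞 K)} (hbot : 𝔮 ≠ ⊥) (htop : 𝔮 ≠ ⊤) {x y : 𝓞 K}
    (hx : IsCoprime (Ideal.span {x}) 𝔮)
    (hy : IsCoprime (Ideal.span {y}) 𝔮) (h : x - y ∈ 𝔮) (hs : SameSign x y) :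
    cls (pi1 htop) ⟨Ideal.span {x}, hx⟩ = cls (pi1 htop) ⟨Ideal.span {y}, hy⟩ := by
  have hx0 := ne_zero_of_cop htop hx
  have hy0 := ne_zero_of_cop htop hy
  obtain ⟨w, hwp, hw⟩ := exists_inv_tp hbot (cop_mul hx hx)
  have h1' : (w * x) * x - 1 ∈ 𝔮 := by rw [mul_assoc]; exact hw
  have h2' : (w * x) * y - 1 ∈ 𝔮 := by
    have : (w * x) * y - 1 = ((w * x) * x - 1) - (w * x) * (x - y) := by ring
    rw [this]; exact sub_mem h1' (Ideal.mul_mem_left _ _ h)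
  have p1 : TPos K ((w * x) * x) := by rw [mul_assoc]; exact tpos_mul hwp (sq_tp hx0)
  have p2 : TPos K ((w * x) * y) := by rw [mul_assoc]; exact tpos_mul hwp (hs.mul_tp hx0 hy0)
  refine cls_of_mul (π := pi1 htop) (a := ⟨(w * x) * y, h2', p2⟩) (b := ⟨(w * x) * x, h1', p1⟩) ?_
  apply Subtype.ext
  rw [Submonoid.coe_mul, Submonoid.coe_mul, pi1_coe, pi1_coe,
    Ideal.span_singleton_mul_span_singleton, Ideal.span_singleton_mul_span_singleton]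
  congr 2
  ring

lemma exists_compl {𝔮 : Ideal (𝓞 K)} (hbot : 𝔮 ≠ ⊥) (htop : 𝔮 ≠ ⊤) (𝔟 : Mq 𝔮) :
    ∃ (x : 𝓞 K) (𝔠 : Mq 𝔮), x - 1 ∈ 𝔮 ∧ TPos K x ∧
      Ideal.span {x} = (𝔟 : Ideal (𝓞 K)) * (𝔠 : Ideal (𝓞 K)) ∧
      cls (pi1 htop) 𝔟 * cls (pi1 htop) 𝔠 = 1 := by
  obtain ⟨x, 𝔠, h1, hp, h2, h3⟩ := exists_mem_one_tp (Mq_cop 𝔟) (Mq_ne_bot htop 𝔟) hbot
  refine ⟨x, ⟨𝔠, h3⟩, h1, hp, h2, ?_⟩
  rw [← map_mul, ← cls_pi (pi1 htop) ⟨x, h1, hp⟩]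
  congr 1
  apply Subtype.ext
  rw [pi1_coe, Submonoid.coe_mul]
  exact h2.symm

lemma exists_rep {𝔮 : Ideal (𝓞 K)} (hbot : 𝔮 ≠ ⊥) (htop : 𝔮 ≠ ⊤) (c : Cls (pi1 htop)) :
    ∃ 𝔞 : Mq 𝔮, cls (pi1 htop) 𝔞 = c := by
  obtain ⟨a, b, hab⟩ := cls_div (pi1 htop) c
  obtain ⟨-, 𝔠, -, -, -, h⟩ := exists_compl hbot htop b
  refine ⟨a * 𝔠, ?_⟩
  rw [map_mul, ← hab, mul_assoc, h, mul_one]

lemma same_class {𝔮 : Ideal (𝓞 K)} (hbot : 𝔮 ≠ ⊥) (htop : 𝔮 ≠ ⊤) {𝔞 𝔟 : Mq 𝔮} {x y : 𝓞 K}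
    (hx : x ≠ 0)
    (h : Ideal.span {x} * (𝔞 : Ideal (𝓞 K)) = Ideal.span {y} * (𝔟 : Ideal (𝓞 K))) :
    ∃ (x' y' : 𝓞 K) (_ : x' - 1 ∈ 𝔮) (_ : TPos K x') (_ : IsCoprime (Ideal.span {y'}) 𝔮),
      Ideal.span {x'} * (𝔞 : Ideal (𝓞 K)) = Ideal.span {y'} * (𝔟 : Ideal (𝓞 K)) := by
  obtain ⟨x', 𝔠, h1, hp, h2, -⟩ := exists_compl hbot htop 𝔟
  have h3 : Ideal.span {x} * ((𝔞 : Ideal (𝓞 K)) * 𝔠) = Ideal.span {y * x'} := by
    rw [← mul_assoc, h, mul_assoc, ← h2, Ideal.span_singleton_mul_span_singleton]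
  have h4 : y * x' ∈ Ideal.span {x} := by
    have h5 : Ideal.span {y * x'} ≤ Ideal.span {x} := by
      rw [← h3]; exact Ideal.mul_le_left
    exact h5 (Ideal.mem_span_singleton_self _)
  obtain ⟨y', hy'⟩ := Ideal.mem_span_singleton'.mp h4
  have h6 : (𝔞 : Ideal (𝓞 K)) * 𝔠 = Ideal.span {y'} := by
    apply mul_left_cancel₀ (a := Ideal.span {x})
    · rw [Ne, Ideal.zero_eq_bot, Ideal.span_singleton_eq_bot]; exact hx
    · rw [h3, Ideal.span_singleton_mul_span_singleton, mul_comm x, hy']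
  refine ⟨x', y', h1, hp, ?_, ?_⟩
  · rw [← h6]; exact IsCoprime.mul_left (Mq_cop 𝔞) (Mq_cop 𝔠)
  · rw [h2, ← h6]; ring

lemma cls_same {𝔮 : Ideal (𝓞 K)} (htop : 𝔮 ≠ ⊤) {𝔞 𝔟 : Mq 𝔮} {x' y' : 𝓞 K} (hx' : x' - 1 ∈ 𝔮)
    (hp : TPos K x') (hy : IsCoprime (Ideal.span {y'}) 𝔮)
    (h : Ideal.span {x'} * (𝔞 : Ideal (𝓞 K)) = Ideal.span {y'} * (𝔟 : Ideal (𝓞 K))) :
    cls (pi1 htop) 𝔞 = cls (pi1 htop) ⟨Ideal.span {y'}, hy⟩ * cls (pi1 htop) 𝔟 := by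
  rw [← map_mul]
  have h1 : pi1 htop ⟨x', hx', hp⟩ * 𝔞 = ⟨Ideal.span {y'}, hy⟩ * 𝔟 := by
    apply Subtype.ext
    rw [Submonoid.coe_mul, Submonoid.coe_mul, pi1_coe]
    exact h
  rw [← h1, map_mul, cls_pi, one_mul]

/-- the ideal class -/
noncomputable def cg {𝔮 : Ideal (𝓞 K)} (htop : 𝔮 ≠ ⊤) (𝔞 : Mq 𝔮) : ClassGroup (𝓞 K) :=
  ClassGroup.mk0 ⟨(𝔞 : Ideal (𝓞 K)), mem_nonZeroDivisors_iff_ne_zero.mpr (Mq_ne_bot htop 𝔞)⟩

lemma cg_eq {𝔮 : Ideal (𝓞 K)} (hbot : 𝔮 ≠ ⊥) (htop : 𝔮 ≠ ⊤) {𝔞 𝔟 : Mq 𝔮}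
    (h : cg htop 𝔞 = cg htop 𝔟) :
    ∃ (x' y' : 𝓞 K) (_ : x' - 1 ∈ 𝔮) (_ : TPos K x') (_ : IsCoprime (Ideal.span {y'}) 𝔮),
      Ideal.span {x'} * (𝔞 : Ideal (𝓞 K)) = Ideal.span {y'} * (𝔟 : Ideal (𝓞 K)) := by
  unfold cg at h
  rw [ClassGroup.mk0_eq_mk0_iff] at h
  obtain ⟨x, y, hx, -, h1⟩ := h
  exact same_class hbot htop hx h1

lemma exists_reps {𝔮 : Ideal (𝓞 K)} (htop : 𝔮 ≠ ⊤) :
    ∃ 𝔟 : ClassGroup (𝓞 K) → Mq 𝔮, ∀ 𝔠 : Mq 𝔮, cg htop (𝔟 (cg htop 𝔠)) = cg htop 𝔠 := by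
  classical
  refine ⟨fun C => if h : ∃ 𝔠 : Mq 𝔮, cg htop 𝔠 = C then h.choose else 1, fun 𝔠 => ?_⟩
  have h : ∃ 𝔠' : Mq 𝔮, cg htop 𝔠' = cg htop 𝔠 := ⟨𝔠, rfl⟩
  simp only [dif_pos h]
  exact h.choose_spec

theorem cls_finite {𝔮 : Ideal (𝓞 K)} (hbot : 𝔮 ≠ ⊥) (htop : 𝔮 ≠ ⊤) :
    Finite (Cls (pi1 htop)) := by
  classical
  have : Finite (𝓞 K ⧸ 𝔮) := Ideal.finiteQuotientOfFreeOfNeBot 𝔮 hbot
  choose 𝔞 h𝔞 using exists_rep hbot htop
  obtain ⟨𝔟, h𝔟⟩ := exists_reps htop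
  choose x' y' hx' hp hy' hxy using fun c => cg_eq hbot htop (h𝔟 (𝔞 c)).symm
  have hinj : Function.Injective (fun c : Cls (pi1 htop) =>
      ((isUnit_mk (hy' c)).unit, cg htop (𝔞 c), sgn (y' c))) := by
    intro c c' h
    obtain ⟨h1, h2⟩ := Prod.ext_iff.mp h
    obtain ⟨h2, h2s⟩ := Prod.ext_iff.mp h2
    have h1' : (isUnit_mk (hy' c)).unit = (isUnit_mk (hy' c')).unit := h1
    have h2' : cg htop (𝔞 c) = cg htop (𝔞 c') := h2
    have h2s' : sgn (y' c) = sgn (y' c') := h2s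
    have h3 : y' c - y' c' ∈ 𝔮 := by
      rw [← Ideal.Quotient.eq, ← IsUnit.unit_spec (isUnit_mk (hy' c)), h1', IsUnit.unit_spec]
    rw [← h𝔞 c, ← h𝔞 c', cls_same htop (hx' c) (hp c) (hy' c) (hxy c),
      cls_same htop (hx' c') (hp c') (hy' c') (hxy c'),
      cls_congr hbot htop (hy' c) (hy' c') h3 (sameSign_of_sgn h2s'), h2']
  exact Finite.of_injective _ hinj

/-- extension by zero -/
noncomputable def ofM' {𝔮 : Ideal (𝓞 K)} (htop : 𝔮 ≠ ⊤) (F : Mq 𝔮 →* ℂˣ) :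
    Ideal (𝓞 K) →*₀ ℂ := by
  classical
  exact {
    toFun := fun 𝔞 => if h : IsCoprime 𝔞 𝔮 then ((F ⟨𝔞, h⟩ : ℂˣ) : ℂ) else 0
    map_zero' := by
      rw [dif_neg]
      intro h
      rw [Ideal.zero_eq_bot, Ideal.isCoprime_iff_sup_eq, bot_sup_eq] at h
      exact htop h
    map_one' := by
      rw [dif_pos isCoprime_one_left]
      have : (⟨1, isCoprime_one_left⟩ : Mq 𝔮) = 1 := rfl
      rw [this, map_one, Units.val_one]
    map_mul' := fun 𝔞 𝔟 => by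
      by_cases h1 : IsCoprime 𝔞 𝔮
      · by_cases h2 : IsCoprime 𝔟 𝔮
        · rw [dif_pos h1, dif_pos h2, dif_pos (h1.mul_left h2), ← Units.val_mul, ← map_mul]
          rfl
        · rw [dif_neg h2, dif_neg (fun h => h2 (IsCoprime.mul_left_iff.mp h).2), mul_zero]
      · rw [dif_neg h1, dif_neg (fun h => h1 (IsCoprime.mul_left_iff.mp h).1), zero_mul] }

open Classical in
lemma ofM'_pos {𝔮 : Ideal (𝓞 K)} (htop : 𝔮 ≠ ⊤) (F : Mq 𝔮 →* ℂˣ) {𝔞 : Ideal (𝓞 K)}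
    (h : IsCoprime 𝔞 𝔮) : ofM' htop F 𝔞 = ((F ⟨𝔞, h⟩ : ℂˣ) : ℂ) := by
  change (if h : IsCoprime 𝔞 𝔮 then ((F ⟨𝔞, h⟩ : ℂˣ) : ℂ) else 0) = _
  rw [dif_pos h]

open Classical in
lemma ofM'_supp {𝔮 : Ideal (𝓞 K)} (htop : 𝔮 ≠ ⊤) (F : Mq 𝔮 →* ℂˣ) (𝔞 : Ideal (𝓞 K)) :
    ofM' htop F 𝔞 ≠ 0 ↔ IsCoprime 𝔞 𝔮 := by
  change (if h : IsCoprime 𝔞 𝔮 then ((F ⟨𝔞, h⟩ : ℂˣ) : ℂ) else 0) ≠ 0 ↔ _
  by_cases h : IsCoprime 𝔞 𝔮
  · rw [dif_pos h]
    exact ⟨fun _ => h, fun _ => Units.ne_zero _⟩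
  · rw [dif_neg h]
    exact ⟨fun h1 => absurd rfl h1, fun h1 => absurd h1 h⟩

end

end Pool.Agent.Run7.h767.ST
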