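import Mathlib

/-! # From the rotated law to the derivative at `0` -/

set_option autoImplicit false

namespace Pool.Agent.Run7.h767.ST

open Complex Filter Topology Asymptotics

lemma exp_sub_one_isBigO {δ : ℝ → ℂ} (h : δ =O[atTop] fun T : ℝ => 1 / T) :
    (fun T => exp (δ T) - 1) =O[atTop] fun T : ℝ => 1 / T := by
  have h1 : Tendsto δ atTop (𝓝 0) :=
    h.trans_tendsto (tendsto_const_nhds.div_atTop tendsto_id)
  have h2 : (fun z : ℂ => exp z - 1) =O[𝓝 0] fun z => z := by
    have h3 := (Complex.hasDerivAt_exp 0).isBigO_sub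
    simpa using h3
  exact (h2.comp_tendsto h1).trans h

/-- The derivative at `0` of a function which vanishes at `0`, from the asymptotic behaviour
`-m (log T - Λ) + r + O(1/T)`, `m` the order and `exp r` the leading coefficient. -/
lemma deriv_of_law {Φ : ℂ → ℂ} (han : AnalyticAt ℂ Φ 0) (h0 : Φ 0 = 0) {S : ℝ → ℂ} {m : ℤ}
    {r Λ : ℂ} {C T₀ : ℝ} (hm : meromorphicOrderAt Φ 0 = m)
    (hr : exp r = meromorphicTrailingCoeffAt Φ 0)
    (h : ∀ T ≥ T₀, ‖-(S T) - (m * (Real.log T - Λ) - r)‖ ≤ C / T) :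
    (fun T : ℝ => T * exp (-Λ) * exp (S T) - deriv Φ 0) =O[atTop] fun T : ℝ => 1 / T := by
  set δ : ℝ → ℂ := fun T => S T + m * (Real.log T - Λ) - r with hδ
  have hδO : δ =O[atTop] fun T : ℝ => 1 / T := by
    refine IsBigO.of_bound C ?_
    filter_upwards [eventually_ge_atTop T₀, eventually_gt_atTop 0] with T hT hT0
    rw [Real.norm_eq_abs, abs_of_pos (by positivity : 0 < 1 / T), mul_one_div]
    refine le_trans (le_of_eq ?_) (h T hT)
    rw [← norm_neg, hδ]
    congr 1
    ring
  -- the analytic order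
  have hord : (analyticOrderAt Φ 0).map (↑) = (m : WithTop ℤ) := by
    rw [← han.meromorphicOrderAt_eq, hm]
  obtain ⟨k, hk⟩ : ∃ k : ℕ, analyticOrderAt Φ 0 = k := by
    cases hq : analyticOrderAt Φ 0 with
    | top =>
      rw [hq] at hord
      exact absurd hord (by simp)
    | coe k => exact ⟨k, rfl⟩
  have hmk : m = k := by
    rw [hk] at hord
    have : ((k : ℤ) : WithTop ℤ) = (m : WithTop ℤ) := by
      simpa using hord
    exact_mod_cast this.symm
  have hk1 : 1 ≤ k := by
    have h1 : analyticOrderAt Φ 0 ≠ 0 := by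
      rw [Ne, han.analyticOrderAt_eq_zero]
      exact fun h2 => h2 h0
    rw [hk] at h1
    have : k ≠ 0 := by
      rintro rfl
      exact h1 rfl
    omega
  subst hmk
  obtain ⟨g, hg, hg0, hgΦ⟩ := (han.analyticOrderAt_eq_natCast).1 hk
  have hcoef : meromorphicTrailingCoeffAt Φ 0 = g 0 := by
    refine hg.meromorphicTrailingCoeffAt_of_ne_zero_of_eq_nhdsNE (n := (k : ℤ)) hg0 ?_
    filter_upwards [hgΦ.filter_mono nhdsWithin_le_nhds] with z hz
    rw [hz, zpow_natCast]
  have hder : deriv Φ 0 = if k = 1 then g 0 else 0 := by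
    have h1 : Φ =ᶠ[𝓝 0] fun z => z ^ k * g z := by
      filter_upwards [hgΦ] with z hz
      rw [hz, sub_zero, smul_eq_mul]
    rw [h1.deriv_eq]
    have h2 : HasDerivAt (fun z : ℂ => z ^ k * g z)
        ((k * (0 : ℂ) ^ (k - 1)) * g 0 + (0 : ℂ) ^ k * deriv g 0) 0 :=
      (hasDerivAt_pow k 0).mul hg.differentiableAt.hasDerivAt
    rw [h2.deriv]
    split_ifs with h3
    · subst h3
      simp
    · have h4 : k - 1 ≠ 0 := by omega
      have h5 : k ≠ 0 := by omega
      rw [zero_pow h4, zero_pow h5]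
      ring
  have hmain : ∀ᶠ T : ℝ in atTop, T * exp (-Λ) * exp (S T) =
      (T : ℂ) * ((T : ℂ) ^ k)⁻¹ * (exp ((k - 1 : ℂ) * Λ) * g 0 * exp (δ T)) := by
    filter_upwards [eventually_gt_atTop 0] with T hT
    have h1 : ((T : ℂ) ^ k)⁻¹ = exp (-(k * Real.log T)) := by
      rw [Complex.exp_neg, Complex.exp_nat_mul, ← Complex.ofReal_exp, Real.exp_log hT]
    rw [h1, ← hcoef, ← hr, mul_assoc, mul_assoc, ← Complex.exp_add, ← Complex.exp_add,
      ← Complex.exp_add, ← Complex.exp_add, hδ]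
    congr 2
    push_cast
    ring
  have hE := exp_sub_one_isBigO hδO
  rw [hder]
  split_ifs with h3
  · subst h3
    have h4 : (fun T : ℝ => T * exp (-Λ) * exp (S T) - g 0) =ᶠ[atTop]
        fun T => g 0 * (exp (δ T) - 1) := by
      filter_upwards [hmain, eventually_gt_atTop 0] with T hT hT0
      have hT1 : (T : ℂ) ≠ 0 := by exact_mod_cast hT0.ne'
      rw [hT, pow_one, mul_inv_cancel₀ hT1]
      simp only [Nat.cast_one, sub_self, zero_mul, Complex.exp_zero]
      ring
    exact h4.trans_isBigO (hE.const_mul_left _)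
  · have hb : (fun T : ℝ => exp (δ T)) =O[atTop] fun _ : ℝ => (1 : ℝ) := by
      have h5 : Tendsto δ atTop (𝓝 0) :=
        hδO.trans_tendsto (tendsto_const_nhds.div_atTop tendsto_id)
      exact ((Complex.continuous_exp.tendsto 0).comp h5).isBigO_one ℝ
    have hc : (fun T : ℝ => (T : ℂ) * ((T : ℂ) ^ k)⁻¹) =O[atTop] fun T : ℝ => 1 / T := by
      refine IsBigO.of_bound 1 ?_
      filter_upwards [eventually_ge_atTop 1] with T hT
      have hT0 : 0 < T := by linarith
      rw [norm_mul, norm_inv, norm_pow, Complex.norm_real, Real.norm_of_nonneg hT0.le, one_mul,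
        Real.norm_of_nonneg (by positivity), ← div_eq_mul_inv, div_le_div_iff₀ (by positivity) hT0,
        one_mul, ← pow_two]
      exact pow_le_pow_right₀ hT (by omega)
    have h4 : (fun T : ℝ => T * exp (-Λ) * exp (S T) - 0) =ᶠ[atTop]
        fun T : ℝ => (T : ℂ) * ((T : ℂ) ^ k)⁻¹ * (exp ((k - 1 : ℂ) * Λ) * g 0 * exp (δ T)) := by
      filter_upwards [hmain] with T hT
      rw [hT, sub_zero]
    refine h4.trans_isBigO ?_
    have h6 := hc.mul (hb.const_mul_left (exp ((k - 1 : ℂ) * Λ) * g 0))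
    simpa using h6

end Pool.Agent.Run7.h767.ST
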