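import Pool.Agent.Y772.HG.Pole
import Pool.Agent.Y772.HG.Sgn
import Pool.Agent.Run7.h767.ST.Char

/-! # The zero at `0` of the L-functions of ray class characters

The proof is that of `Pool.Agent.Y772.G.LI_pole` (helper772), with one more conclusion. -/

set_option autoImplicit false
set_option linter.unusedSectionVars false

open NumberField Complex Filter Topology MeasureTheory Set
open NumberField.Units NumberField.Units.dirichletUnitTheorem

namespace Pool.Agent.Run7.h767.ST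

open Pool.Agent.Y772.G
open Pool.Agent.Y773.G
open Pool.Agent.Y773 (TPos LI Reps rp rp_ne_bot reps_rp mm mm_pos mm_mem Dd Dd_pos Dd_mem)

variable {K : Type} [Field K] [NumberField K]

lemma ex_complex {e : InfinitePlace K → ℕ} {w : InfinitePlace K} (hw : w.IsComplex) :
    ex e w.embedding = 0 := by
  unfold ex
  rw [InfinitePlace.mk_embedding]
  split_ifs with h3 h4
  · exact absurd h3 (InfinitePlace.not_isReal_iff_isComplex.2 hw)
  · rfl
  · exact absurd rfl h4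

/-- continuation of `(s - 1) L(s, η)`, and its zero at `0` -/
theorem LI_zero {𝔪 : Ideal (𝓞 K)} {e : InfinitePlace K → ℕ} {η : Ideal (𝓞 K) →*₀ ℂ}
    (h : IsModChar 𝔪 e η) (hφ : ∃ φ : K →+* ℂ, ex e φ = 0) :
    ∃ F : ℂ → ℂ, Differentiable ℂ F ∧ (∀ s : ℂ, 1 < s.re → F s = (s - 1) * LI η s) ∧
      F 0 = 0 := by
  obtain ⟨C, hC, hmel⟩ := mellin_Ftot K
  obtain ⟨V, hV0, hV⟩ := fam_weak K
  have hN : ∀ c, Nice e (Ps η e (rp K c)) := fun c => nice h (rp_ne_bot c)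
  obtain ⟨P, hPf, hPg, hk, hε, hf0, hg0⟩ := hV (rp K) reps_rp e h.sig_le h.cpx
    (fun c => Ps η e (rp K c)) 1 (fun c => ((t_per K 𝔪 e η h).2.2 _ (rp_ne_bot c)).2.2.1)
    (fun c => (hN c).unit) (mm (rp K) 𝔪) (Dd K)
    (mm_pos rp_ne_bot h.ne_bot) Dd_pos Dd_mem (fun c => per_m h (rp_ne_bot c) (mm_mem _ _ c))
  have hf0' : P.f₀ = 0 := by
    rw [hf0, Finset.sum_eq_zero fun c _ => (hN c).zero, mul_zero]
  have hFF : P.f = Ftot η e (rp K) := hPf
  set κ : ℂ := P.ε with hκ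
  set g0c : ℂ := P.g₀ with hg0c
  have hH : ∀ s : ℂ, 1 < s.re → (s - 1) * P.Λ₀ s + κ * g0c =
      (s - 1) * mellin (Ftot η e (rp K)) s := by
    intro s hs
    have h1 := P.hasMellin (s := s) (by rw [hk]; exact hs)
    have h2 : mellin (Ftot η e (rp K)) s = P.Λ s := by
      rw [← h1.2, hFF, hf0']
      simp only [sub_zero]
    have h3 : s - 1 ≠ 0 := by
      intro h
      have : s = 1 := by linear_combination h
      rw [this] at hs
      simp at hs
    have h4 : (1 : ℂ) - s ≠ 0 := by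
      intro h
      apply h3
      linear_combination -h
    rw [h2, P.Λ₀_eq s, hk, hf0', ← hκ, ← hg0c]
    simp only [smul_eq_mul, ofReal_one]
    field_simp
    ring
  refine ⟨fun s => (C : ℂ)⁻¹ * (((s - 1) * P.Λ₀ s + κ * g0c) *
      ∏ φ : K →+* ℂ, (Complex.Gammaℝ (s + ex e φ))⁻¹),
    ((((differentiable_id.sub_const 1).mul P.differentiable_Λ₀).add_const _).mul
      (Pool.Agent.Y772.G.differentiable_gam e)).const_mul _, fun s hs => ?_, ?_⟩
  · simp only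
    rw [hH s hs, (hmel (rp K) reps_rp e η (t_per K 𝔪 e η h).1 hN s hs).2, Finset.prod_inv_distrib]
    have h3 := Pool.Agent.Y772.G.gam_ne_zero e (K := K) (s := s) (by linarith)
    have hC' : (C : ℂ) ≠ 0 := by exact_mod_cast hC.ne'
    field_simp
  · obtain ⟨φ₀, hφ₀⟩ := hφ
    have h1 : ∏ φ : K →+* ℂ, (Complex.Gammaℝ (0 + ex e φ))⁻¹ = 0 := by
      refine Finset.prod_eq_zero (Finset.mem_univ φ₀) ?_
      rw [hφ₀, Nat.cast_zero, add_zero, inv_eq_zero, Complex.Gammaℝ_eq_zero_iff]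
      exact ⟨0, by norm_num⟩
    simp only [h1, mul_zero]

/-- the signature of a ray class character -/
lemma exists_modChar {𝔣 : Ideal (𝓞 K)} {P : Set (K →+* ℝ)} (hbot : 𝔣 ≠ ⊥) (htop : 𝔣 ≠ ⊤)
    {χ : Ideal (𝓞 K) →*₀ ℂ} (hχ : IsRayChar 𝔣 P χ) :
    ∃ e : InfinitePlace K → ℕ, IsModChar 𝔣 e χ := by
  obtain ⟨e, he, hc, hsig⟩ := t_sig K 𝔣 χ hbot (fun x _ h1 h2 => hχ.2 x h1 (ppos_of_tpos h2))
  exact ⟨e, hbot, htop, he, hc, hχ.1, hsig⟩

/-- a real place outside of the modulus -/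
lemma sig_zero {𝔣 : Ideal (𝓞 K)} {P : Set (K →+* ℝ)} {χ : Ideal (𝓞 K) →*₀ ℂ}
    (hχ : IsRayChar 𝔣 P χ) {e : InfinitePlace K → ℕ} (he : IsModChar 𝔣 e χ) {σ : K →+* ℝ}
    (hσ : σ ∉ P) : ∃ w : InfinitePlace K, ex e w.embedding = 0 := by
  classical
  obtain ⟨w, hw, hwσ⟩ := exists_rl σ
  refine ⟨w, ?_⟩
  obtain ⟨x, hx0, hx1, hx2, hx3⟩ := exists_neg he.ne_bot w
  have hP : PPos P x := by
    intro τ hτ
    obtain ⟨w', hw', hwτ⟩ := exists_rl τ
    rw [← hwτ]
    refine hx3 w' fun _ hc => ?_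
    subst hc
    apply hσ
    have : σ = τ := by
      ext z
      rw [← hwσ, ← hwτ]
    rw [this]
    exact hτ
  have h1 := hχ.2 x hx1 hP
  rw [he.sig x hx0 hx1] at h1
  unfold sg at h1
  rw [Finset.prod_eq_single w] at h1
  · rw [sign_neg (hx2 hw)] at h1
    have h2 := he.sig_le w
    have h3 : e w = 0 := by
      by_contra h4
      have h5 : e w = 1 := by omega
      rw [h5] at h1
      norm_num at h1
    unfold ex
    rw [InfinitePlace.mk_embedding, if_pos hw, h3]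
  · intro w' _ hne
    rw [sign_pos (hx3 w' fun _ => hne)]
    simp
  · intro h
    exact absurd (Finset.mem_univ w) h

/-- the continuation, if the field has a complex place or a real embedding outside of `P` -/
theorem cont_char {P : Set (K →+* ℝ)} (hK : (∃ w : InfinitePlace K, w.IsComplex) ∨ P ≠ Set.univ)
    {𝔣 : Ideal (𝓞 K)} (hbot : 𝔣 ≠ ⊥) (htop : 𝔣 ≠ ⊤) {χ : Ideal (𝓞 K) →*₀ ℂ}
    (hχ : IsRayChar 𝔣 P χ) :
    ∃ F : ℂ → ℂ, Differentiable ℂ F ∧ (∀ s : ℂ, 1 < s.re → F s = (s - 1) * LI χ s) ∧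
      F 0 = 0 := by
  obtain ⟨e, he⟩ := exists_modChar hbot htop hχ
  rcases hK with ⟨w, hw⟩ | hP
  · exact LI_zero he ⟨w.embedding, ex_complex hw⟩
  · obtain ⟨σ, hσ⟩ := (Set.ne_univ_iff_exists_notMem P).1 hP
    obtain ⟨w, hw⟩ := sig_zero hχ he hσ
    exact LI_zero he ⟨w.embedding, hw⟩

end Pool.Agent.Run7.h767.ST
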