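import Pool.Agent.Y772.DK.Main
import Pool.Agent.Run7.h453.CX.Gen
import Pool.Agent.Run7.h767.ST.Zero
import Pool.Agent.Run7.h767.ST.Lim

/-! # The limit formula for the derivative at `0` of the partial zeta functions -/

set_option autoImplicit false
set_option linter.unusedSectionVars false

open NumberField Complex Filter Topology Asymptotics

namespace Pool.Agent.Run7.h767.ST

open Pool.Agent.Y773 (TPos LI VM)
open Pool.Agent.Y772.DK (ee ee_zero ee_le LI_eq_exp LA nr nr_summable term_le term_summable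
  VM_nonneg VM_le)
open Pool.Agent.Run7.h453.CX (cser rterm gen_law rterm_summable)

variable {K : Type} [Field K] [NumberField K]

/-- `log N𝔞` -/
noncomputable def lg (𝔞 : Ideal (𝓞 K)) : ℝ := Real.log (Ideal.absNorm 𝔞 : ℕ)

lemma lg_nonneg (𝔞 : Ideal (𝓞 K)) : 0 ≤ lg 𝔞 := Real.log_natCast_nonneg _

lemma cpow_eq {𝔞 : Ideal (𝓞 K)} (h : 𝔞 ≠ 0) (s : ℂ) :
    ((Ideal.absNorm 𝔞 : ℕ) : ℂ) ^ (-s) = exp (-(s * lg 𝔞)) := by
  have h1 : ((Ideal.absNorm 𝔞 : ℕ) : ℂ) ≠ 0 := by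
    have := absNorm_pos' (K := K) (𝔮 := 𝔞) h
    exact_mod_cast this.ne'
  rw [Complex.cpow_def_of_ne_zero h1, ← Complex.natCast_log]
  unfold lg
  congr 1
  ring

lemma LA_eq_cser {χ : Ideal (𝓞 K) →*₀ ℂ} (s : ℂ) : LA (ee χ) s = cser lg (ee χ) s := by
  unfold LA cser
  refine tsum_congr fun 𝔞 => ?_
  by_cases h : 𝔞 = 0
  · rw [h, ee_zero, zero_mul, zero_mul]
  · rw [cpow_eq h]

lemma ee_summable {χ : Ideal (𝓞 K) →*₀ ℂ} (hχ : ∀ 𝔞, ‖χ 𝔞‖ ≤ 1) {σ : ℝ} (hσ : 1 < σ) :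
    Summable fun 𝔞 : Ideal (𝓞 K) => ‖ee χ 𝔞‖ * Real.exp (-(σ * lg 𝔞)) := by
  have h1 := term_summable (a := ee χ) (ee_zero χ) (ee_le χ hχ) (s := (σ : ℂ))
    (by rw [Complex.ofReal_re]; exact hσ)
  refine h1.congr fun 𝔞 => ?_
  by_cases h : 𝔞 = 0
  · rw [h, ee_zero, zero_mul, norm_zero, zero_mul]
  · rw [norm_mul, cpow_eq h, Complex.norm_exp]
    congr 2
    simp

/-- the sum `S_χ(T)` -/
noncomputable def SX (χ : Ideal (𝓞 K) →*₀ ℂ) (γ T : ℝ) : ℂ := ∑' 𝔞, rterm lg (ee χ) γ T 𝔞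

instance countable_ideal : Countable (Ideal (𝓞 K)) := by
  have h1 : (Set.univ : Set (Ideal (𝓞 K))) = ⋃ n : ℕ, {I | Ideal.absNorm I = n} := by
    ext I
    simp
  rw [← Set.countable_univ_iff, h1]
  refine Set.countable_iUnion fun n => ?_
  rcases Nat.eq_zero_or_pos n with rfl | hn
  · refine (Set.countable_singleton (⊥ : Ideal (𝓞 K))).mono ?_
    intro I hI
    exact Ideal.absNorm_eq_zero_iff.1 hI
  · exact (Ideal.finite_setOfPred_absNorm_eq n).countable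

/-- **The law for a character** -/
theorem law_char {P : Set (K →+* ℝ)} (hK : (∃ w : InfinitePlace K, w.IsComplex) ∨ P ≠ Set.univ)
    {𝔣 : Ideal (𝓞 K)} (hbot : 𝔣 ≠ ⊥) (htop : 𝔣 ≠ ⊤) {χ : Ideal (𝓞 K) →*₀ ℂ}
    (hχ : IsRayChar 𝔣 P χ) :
    ∃ Φ : ℂ → ℂ, (∀ s : ℂ, s ≠ 1 → AnalyticAt ℂ Φ s) ∧ (∀ s : ℂ, MeromorphicAt Φ s) ∧
      (∀ s : ℂ, 1 < s.re → Φ s = LI χ s) ∧ Φ 0 = 0 ∧
      ∀ γ : ℝ, Real.pi / 2 < γ →
        (fun T : ℝ => T * exp (-Pool.Agent.W187.UR.Lam γ) * exp (SX χ γ T) - deriv Φ 0)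
          =O[atTop] fun T : ℝ => 1 / T := by
  obtain ⟨F, hF, hFs, hF0⟩ := cont_char hK hbot htop hχ
  have hle := norm_char_le P hbot htop hχ
  have han : ∀ s : ℂ, AnalyticAt ℂ F s := fun s => hF.analyticAt s
  have hmer : ∀ s : ℂ, MeromorphicAt (fun z => F z / (z - 1)) s := fun s =>
    (han s).meromorphicAt.div ((analyticAt_id.sub analyticAt_const).meromorphicAt)
  have hne : ∀ s : ℂ, 1 < s.re → s - 1 ≠ 0 := by
    intro s hs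
    refine sub_ne_zero_of_ne ?_
    rintro rfl
    simp at hs
  refine ⟨fun z => F z / (z - 1), fun s hs => ?_, hmer, fun s hs => ?_, ?_, fun γ hγ => ?_⟩
  · exact (han s).div (analyticAt_id.sub analyticAt_const) (sub_ne_zero_of_ne hs)
  · show F s / (s - 1) = LI χ s
    rw [hFs s hs, mul_div_cancel_left₀ _ (hne s hs)]
  · show F 0 / (0 - 1) = 0
    rw [hF0, zero_div]
  · obtain ⟨m, r, C, T₀, hm, hr, h⟩ := gen_law (lam := lg (K := K)) (c := ee χ)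
      (Φ := fun z => F z / (z - 1)) (A := 1) one_pos lg_nonneg
      (fun σ hσ => ee_summable hle hσ) (fun x _ => hmer _) (fun w hw => by
        rw [hFs w hw, mul_div_cancel_left₀ _ (hne w hw), LI_eq_exp χ hle hw, LA_eq_cser]) hγ
    refine deriv_of_law ?_ (by rw [hF0, zero_div]) hm hr h
    exact (han 0).div (analyticAt_id.sub analyticAt_const) (by norm_num)

section cls

variable {𝔣 : Ideal (𝓞 K)} {P : Set (K →+* ℝ)}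

/-- the partial zeta function -/
noncomputable def pz (𝔣 : Ideal (𝓞 K)) (P : Set (K →+* ℝ)) (𝔟 : Ideal (𝓞 K)) (s : ℂ) : ℂ :=
  ∑' 𝔞 : {𝔞 : Ideal (𝓞 K) // SameClass 𝔣 P 𝔞 𝔟}, ((Ideal.absNorm 𝔞.1 : ℕ) : ℂ) ^ (-s)

/-- the number of characters, the order of the narrow ray class group -/
noncomputable def hh (𝔣 : Ideal (𝓞 K)) (P : Set (K →+* ℝ)) : ℕ :=
  Set.ncard {χ : Ideal (𝓞 K) →*₀ ℂ | IsRayChar 𝔣 P χ}

lemma pz_eq (hbot : 𝔣 ≠ ⊥) (htop : 𝔣 ≠ ⊤) {𝔟 : Ideal (𝓞 K)} (hb : IsCoprime 𝔟 𝔣) {s : ℂ}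
    (hs : 1 < s.re) : pz 𝔣 P 𝔟 s = (hh 𝔣 P : ℂ)⁻¹ *
      ∑ᶠ χ ∈ {χ : Ideal (𝓞 K) →*₀ ℂ | IsRayChar 𝔣 P χ}, (starRingEnd ℂ) (χ 𝔟) * LI χ s := by
  classical
  have hfin := rayChar_finite (K := K) P hbot htop
  have hpos := card_char_pos (K := K) P hbot htop
  have hh0 : (hh 𝔣 P : ℂ) ≠ 0 := by
    unfold hh
    exact_mod_cast hpos.ne'
  rw [finsum_mem_eq_finite_toFinset_sum _ hfin]
  have h1 : ∀ χ ∈ hfin.toFinset, (starRingEnd ℂ) (χ 𝔟) * LI χ s =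
      ∑' 𝔞 : Ideal (𝓞 K), (starRingEnd ℂ) (χ 𝔟) * (χ 𝔞 * ((Ideal.absNorm 𝔞 : ℕ) : ℂ) ^ (-s)) := by
    intro χ _
    rw [tsum_mul_left]
    rfl
  have h2 : ∀ χ ∈ hfin.toFinset, Summable fun 𝔞 : Ideal (𝓞 K) =>
      (starRingEnd ℂ) (χ 𝔟) * (χ 𝔞 * ((Ideal.absNorm 𝔞 : ℕ) : ℂ) ^ (-s)) := by
    intro χ hχ
    have hχ' : IsRayChar 𝔣 P χ := hfin.mem_toFinset.1 hχ
    exact (term_summable (a := fun 𝔞 => χ 𝔞) (map_zero χ) (norm_char_le P hbot htop hχ')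
      hs).of_norm.mul_left _
  rw [Finset.sum_congr rfl h1, ← Summable.tsum_finsetSum h2, ← tsum_mul_left]
  unfold pz
  rw [← tsum_subtype_eq_of_support_subset (s := {𝔞 : Ideal (𝓞 K) | SameClass 𝔣 P 𝔞 𝔟})
    (f := fun 𝔞 : Ideal (𝓞 K) => (hh 𝔣 P : ℂ)⁻¹ * ∑ χ ∈ hfin.toFinset,
      (starRingEnd ℂ) (χ 𝔟) * (χ 𝔞 * ((Ideal.absNorm 𝔞 : ℕ) : ℂ) ^ (-s)))]
  · refine tsum_congr fun 𝔞 => ?_
    have h3 := orth P hbot htop hb 𝔞.1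
    rw [finsum_mem_eq_finite_toFinset_sum _ hfin, if_pos 𝔞.2] at h3
    have h4 : ∑ χ ∈ hfin.toFinset,
        (starRingEnd ℂ) (χ 𝔟) * (χ 𝔞.1 * ((Ideal.absNorm 𝔞.1 : ℕ) : ℂ) ^ (-s)) =
        (hh 𝔣 P : ℂ) * ((Ideal.absNorm 𝔞.1 : ℕ) : ℂ) ^ (-s) := by
      have : (hh 𝔣 P : ℂ) = (Set.ncard {χ : Ideal (𝓞 K) →*₀ ℂ | IsRayChar 𝔣 P χ} : ℂ) := rfl
      rw [this, ← h3, Finset.sum_mul]
      exact Finset.sum_congr rfl fun χ _ => by ring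
    change _ = (hh 𝔣 P : ℂ)⁻¹ * ∑ χ ∈ hfin.toFinset,
        (starRingEnd ℂ) (χ 𝔟) * (χ 𝔞.1 * ((Ideal.absNorm 𝔞.1 : ℕ) : ℂ) ^ (-s))
    rw [h4, inv_mul_cancel_left₀ hh0]
  · intro 𝔞 h𝔞
    rw [Function.mem_support] at h𝔞
    by_contra hc
    apply h𝔞
    have h3 := orth P hbot htop hb 𝔞
    have hc' : ¬ SameClass 𝔣 P 𝔞 𝔟 := hc
    rw [finsum_mem_eq_finite_toFinset_sum _ hfin, if_neg hc'] at h3
    have h4 : ∑ χ ∈ hfin.toFinset,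
        (starRingEnd ℂ) (χ 𝔟) * (χ 𝔞 * ((Ideal.absNorm 𝔞 : ℕ) : ℂ) ^ (-s)) =
        (∑ χ ∈ hfin.toFinset, (starRingEnd ℂ) (χ 𝔟) * χ 𝔞) *
          ((Ideal.absNorm 𝔞 : ℕ) : ℂ) ^ (-s) := by
      rw [Finset.sum_mul]
      exact Finset.sum_congr rfl fun χ _ => by ring
    rw [h4, h3, zero_mul, mul_zero]

/-- the approximation -/
noncomputable def approx (𝔣 : Ideal (𝓞 K)) (P : Set (K →+* ℝ)) (𝔟 : Ideal (𝓞 K)) (γ T : ℝ) : ℂ :=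
  T * exp (-Pool.Agent.W187.UR.Lam γ) * ((hh 𝔣 P : ℂ)⁻¹ *
    ∑ᶠ χ ∈ {χ : Ideal (𝓞 K) →*₀ ℂ | IsRayChar 𝔣 P χ}, (starRingEnd ℂ) (χ 𝔟) * exp (SX χ γ T))

/-- **the limit formula** -/
theorem main_cls (hK : (∃ w : InfinitePlace K, w.IsComplex) ∨ P ≠ Set.univ) (hbot : 𝔣 ≠ ⊥) (htop : 𝔣 ≠ ⊤)
    {𝔟 : Ideal (𝓞 K)} (hb : IsCoprime 𝔟 𝔣) :
    ∃ Z : ℂ → ℂ, (∀ s : ℂ, s ≠ 1 → AnalyticAt ℂ Z s) ∧ (∀ s : ℂ, MeromorphicAt Z s) ∧
      (∀ s : ℂ, 1 < s.re → Z s = pz 𝔣 P 𝔟 s) ∧ Z 0 = 0 ∧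
      ∀ γ : ℝ, Real.pi / 2 < γ →
        (fun T : ℝ => approx 𝔣 P 𝔟 γ T - deriv Z 0) =O[atTop] fun T : ℝ => 1 / T := by
  classical
  have hfin := rayChar_finite (K := K) P hbot htop
  choose! Φ h1 h2 h3 h4 h5 using fun (χ : Ideal (𝓞 K) →*₀ ℂ) (hχ : IsRayChar 𝔣 P χ) =>
    law_char hK hbot htop hχ
  have hm : ∀ χ ∈ hfin.toFinset, IsRayChar 𝔣 P χ := fun χ hχ => hfin.mem_toFinset.1 hχ
  refine ⟨fun s => (hh 𝔣 P : ℂ)⁻¹ * ∑ χ ∈ hfin.toFinset, (starRingEnd ℂ) (χ 𝔟) * Φ χ s,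
    fun s hs => ?_, fun s => ?_, fun s hs => ?_, ?_, fun γ hγ => ?_⟩
  · refine analyticAt_const.mul (Finset.analyticAt_fun_sum _ fun χ hχ => ?_)
    exact analyticAt_const.mul (h1 χ (hm χ hχ) s hs)
  · have h8 : ∀ t : Finset (Ideal (𝓞 K) →*₀ ℂ), (∀ χ ∈ t, IsRayChar 𝔣 P χ) →
        MeromorphicAt (fun s => ∑ χ ∈ t, (starRingEnd ℂ) (χ 𝔟) * Φ χ s) s := by
      intro t
      induction t using Finset.induction_on with
      | empty =>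
        intro _
        simp only [Finset.sum_empty]
        exact analyticAt_const.meromorphicAt
      | insert a t ha ih =>
        intro ht
        simp only [Finset.sum_insert ha]
        refine MeromorphicAt.fun_add ?_ (ih fun χ hχ => ht χ (Finset.mem_insert_of_mem hχ))
        exact (analyticAt_const.meromorphicAt).fun_mul (h2 a (ht a (Finset.mem_insert_self _ _)) s)
    exact (analyticAt_const.meromorphicAt).fun_mul (h8 _ hm)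
  · simp only
    rw [pz_eq hbot htop hb hs, finsum_mem_eq_finite_toFinset_sum _ hfin]
    congr 1
    exact Finset.sum_congr rfl fun χ hχ => by rw [h3 χ (hm χ hχ) s hs]
  · simp only
    rw [Finset.sum_eq_zero fun χ hχ => by rw [h4 χ (hm χ hχ), mul_zero], mul_zero]
  · have hd : deriv (fun s => (hh 𝔣 P : ℂ)⁻¹ * ∑ χ ∈ hfin.toFinset,
        (starRingEnd ℂ) (χ 𝔟) * Φ χ s) 0 =
        (hh 𝔣 P : ℂ)⁻¹ * ∑ χ ∈ hfin.toFinset, (starRingEnd ℂ) (χ 𝔟) * deriv (Φ χ) 0 := by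
      have h6 : HasDerivAt (fun s => (hh 𝔣 P : ℂ)⁻¹ * ∑ χ ∈ hfin.toFinset,
          (starRingEnd ℂ) (χ 𝔟) * Φ χ s)
          ((hh 𝔣 P : ℂ)⁻¹ * ∑ χ ∈ hfin.toFinset, (starRingEnd ℂ) (χ 𝔟) * deriv (Φ χ) 0) 0 := by
        refine HasDerivAt.const_mul _ (HasDerivAt.fun_sum fun χ hχ => ?_)
        exact ((h1 χ (hm χ hχ) 0 (by norm_num)).differentiableAt.hasDerivAt).const_mul _
      exact h6.deriv
    rw [hd]
    have h7 : (fun T : ℝ => approx 𝔣 P 𝔟 γ T - (hh 𝔣 P : ℂ)⁻¹ * ∑ χ ∈ hfin.toFinset,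
        (starRingEnd ℂ) (χ 𝔟) * deriv (Φ χ) 0) =
        fun T : ℝ => ∑ χ ∈ hfin.toFinset, ((hh 𝔣 P : ℂ)⁻¹ * (starRingEnd ℂ) (χ 𝔟)) *
          (T * exp (-Pool.Agent.W187.UR.Lam γ) * exp (SX χ γ T) - deriv (Φ χ) 0) := by
      funext T
      unfold approx
      rw [finsum_mem_eq_finite_toFinset_sum _ hfin, Finset.mul_sum, Finset.mul_sum,
        Finset.mul_sum, ← Finset.sum_sub_distrib]
      exact Finset.sum_congr rfl fun χ _ => by ring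
    rw [h7]
    refine IsBigO.fun_sum fun χ hχ => ?_
    exact (h5 χ (hm χ hχ) γ hγ).const_mul_left _

end cls

end Pool.Agent.Run7.h767.ST
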