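import Pool.Agent.Run7.h767.ST.Chr

/-! # Zeros of higher order at `0`: the leading coefficient as a limit -/

set_option autoImplicit false
set_option linter.unusedSectionVars false

open NumberField Complex Filter Topology Asymptotics MeasureTheory Set
open NumberField.Units NumberField.Units.dirichletUnitTheorem

namespace Pool.Agent.Run7.h767.ST

/-- the coefficient `g 0` of `s ^ n g(s)` from the asymptotic law -/
lemma coef_of_law {Φ g : ℂ → ℂ} {n : ℕ} (hg : AnalyticAt ℂ g 0)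
    (hΦ : ∀ᶠ z in 𝓝 (0 : ℂ), Φ z = z ^ n * g z) {S : ℝ → ℂ} {m : ℤ}
    {r Λ : ℂ} {C T₀ : ℝ} (hm : meromorphicOrderAt Φ 0 = m)
    (hr : exp r = meromorphicTrailingCoeffAt Φ 0)
    (h : ∀ T ≥ T₀, ‖-(S T) - (m * (Real.log T - Λ) - r)‖ ≤ C / T) :
    (fun T : ℝ => (T : ℂ) ^ n * exp (-(n * Λ)) * exp (S T) - g 0) =O[atTop]
      fun T : ℝ => 1 / T := by
  set δ : ℝ → ℂ := fun T => S T + m * (Real.log T - Λ) - r with hδ
  have hδO : δ =O[atTop] fun T : ℝ => 1 / T := by
    refine IsBigO.of_bound C ?_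
    filter_upwards [eventually_ge_atTop T₀, eventually_gt_atTop 0] with T hT hT0
    rw [Real.norm_eq_abs, abs_of_pos (by positivity : 0 < 1 / T), mul_one_div]
    refine le_trans (le_of_eq ?_) (h T hT)
    rw [← norm_neg, hδ]
    congr 1
    ring
  have han : AnalyticAt ℂ (fun z => z ^ n * g z) 0 := (analyticAt_id.pow n).mul hg
  have hΦan : AnalyticAt ℂ Φ 0 := han.congr (by
    filter_upwards [hΦ] with z hz
    exact hz.symm)
  -- the order of `g`
  obtain ⟨k, hk⟩ : ∃ k : ℕ, analyticOrderAt g 0 = k := by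
    cases hq : analyticOrderAt g 0 with
    | top =>
      exfalso
      rw [analyticOrderAt_eq_top] at hq
      have h1 : meromorphicOrderAt Φ 0 = ⊤ := by
        rw [meromorphicOrderAt_eq_top_iff]
        refine Filter.Eventually.filter_mono nhdsWithin_le_nhds ?_
        filter_upwards [hΦ, hq] with z h1 h2
        rw [h1, h2, mul_zero]
      rw [h1] at hm
      exact absurd hm.symm (WithTop.coe_ne_top)
    | coe k => exact ⟨k, rfl⟩
  obtain ⟨q, hq, hq0, hqg⟩ := (hg.analyticOrderAt_eq_natCast).1 hk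
  have hΦ2 : ∀ᶠ z in 𝓝 (0 : ℂ), Φ z = z ^ (n + k) * q z := by
    filter_upwards [hΦ, hqg] with z h1 h2
    rw [h1, h2, sub_zero, smul_eq_mul, pow_add]
    ring
  have hmk : m = ((n + k : ℕ) : ℤ) := by
    have h1 : meromorphicOrderAt Φ 0 = (((n + k : ℕ) : ℤ) : WithTop ℤ) := by
      rw [meromorphicOrderAt_eq_int_iff hΦan.meromorphicAt]
      refine ⟨q, hq, hq0, ?_⟩
      refine Filter.Eventually.filter_mono nhdsWithin_le_nhds ?_
      filter_upwards [hΦ2] with z hz
      rw [hz, sub_zero, zpow_natCast, smul_eq_mul]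
    rw [h1] at hm
    exact_mod_cast hm.symm
  have hcoef : meromorphicTrailingCoeffAt Φ 0 = q 0 := by
    refine hq.meromorphicTrailingCoeffAt_of_ne_zero_of_eq_nhdsNE (n := ((n + k : ℕ) : ℤ)) hq0 ?_
    filter_upwards [hΦ2.filter_mono nhdsWithin_le_nhds] with z hz
    rw [hz, zpow_natCast, sub_zero, smul_eq_mul]
  have hg0 : g 0 = if k = 0 then q 0 else 0 := by
    have h1 := hqg.self_of_nhds
    rw [sub_zero, smul_eq_mul] at h1
    rw [h1]
    split_ifs with h2
    · rw [h2, pow_zero, one_mul]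
    · rw [zero_pow h2, zero_mul]
  subst hmk
  have hmain : ∀ᶠ T : ℝ in atTop, (T : ℂ) ^ n * exp (-(n * Λ)) * exp (S T) =
      ((T : ℂ) ^ k)⁻¹ * (exp (k * Λ) * q 0 * exp (δ T)) := by
    filter_upwards [eventually_gt_atTop 0] with T hT
    have h1 : ((T : ℂ) ^ k)⁻¹ = exp (-(k * Real.log T)) := by
      rw [Complex.exp_neg, Complex.exp_nat_mul, ← Complex.ofReal_exp, Real.exp_log hT]
    have h2 : (T : ℂ) ^ n = exp (n * Real.log T) := by
      rw [Complex.exp_nat_mul, ← Complex.ofReal_exp, Real.exp_log hT]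
    rw [h1, h2, ← hcoef, ← hr, ← Complex.exp_add, ← Complex.exp_add, ← Complex.exp_add,
      ← Complex.exp_add, ← Complex.exp_add, hδ]
    congr 1
    push_cast
    ring
  have hE := exp_sub_one_isBigO hδO
  rw [hg0]
  split_ifs with h3
  · subst h3
    have h4 : (fun T : ℝ => (T : ℂ) ^ n * exp (-(n * Λ)) * exp (S T) - q 0) =ᶠ[atTop]
        fun T => q 0 * (exp (δ T) - 1) := by
      filter_upwards [hmain] with T hT
      rw [hT, pow_zero, inv_one, one_mul]
      simp only [Nat.cast_zero, zero_mul, Complex.exp_zero]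
      ring
    exact h4.trans_isBigO (hE.const_mul_left _)
  · have hb : (fun T : ℝ => exp (δ T)) =O[atTop] fun _ : ℝ => (1 : ℝ) := by
      have h5 : Tendsto δ atTop (𝓝 0) :=
        hδO.trans_tendsto (tendsto_const_nhds.div_atTop tendsto_id)
      exact ((Complex.continuous_exp.tendsto 0).comp h5).isBigO_one ℝ
    have hc : (fun T : ℝ => ((T : ℂ) ^ k)⁻¹) =O[atTop] fun T : ℝ => 1 / T := by
      refine IsBigO.of_bound 1 ?_
      filter_upwards [eventually_ge_atTop 1] with T hT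
      have hT0 : 0 < T := by linarith
      rw [norm_inv, norm_pow, Complex.norm_real, Real.norm_of_nonneg hT0.le, one_mul,
        Real.norm_of_nonneg (by positivity), ← one_div, div_le_div_iff₀ (by positivity) hT0,
        one_mul, one_mul]
      calc T = T ^ 1 := (pow_one T).symm
        _ ≤ T ^ k := pow_le_pow_right₀ hT (by omega)
    have h4 : (fun T : ℝ => (T : ℂ) ^ n * exp (-(n * Λ)) * exp (S T) - 0) =ᶠ[atTop]
        fun T : ℝ => ((T : ℂ) ^ k)⁻¹ * (exp (k * Λ) * q 0 * exp (δ T)) := by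
      filter_upwards [hmain] with T hT
      rw [hT, sub_zero]
    refine h4.trans_isBigO ?_
    have h6 := hc.mul (hb.const_mul_left (exp (k * Λ) * q 0))
    simpa using h6

open Pool.Agent.Y772.G
open Pool.Agent.Y773.G
open Pool.Agent.Y773 (TPos LI Reps rp rp_ne_bot reps_rp mm mm_pos mm_mem Dd Dd_pos Dd_mem)

variable {K : Type} [Field K] [NumberField K]

lemma gam_factor : ∃ q : ℂ → ℂ, Differentiable ℂ q ∧ ∀ s, (Complex.Gammaℝ s)⁻¹ = s * q s := by
  refine ⟨dslope (fun s => (Complex.Gammaℝ s)⁻¹) 0, ?_, fun s => ?_⟩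
  · rw [← differentiableOn_univ, Complex.differentiableOn_dslope univ_mem]
    exact Complex.differentiable_Gammaℝ_inv.differentiableOn
  · have h0 : (Complex.Gammaℝ 0)⁻¹ = 0 := by
      rw [inv_eq_zero, Complex.Gammaℝ_eq_zero_iff]
      exact ⟨0, by norm_num⟩
    have h1 := sub_smul_dslope (fun s => (Complex.Gammaℝ s)⁻¹) 0 s
    rw [sub_zero, smul_eq_mul] at h1
    rw [h1, h0, sub_zero]

open Classical in
/-- the continuation of `(s - 1) L(s, η)` is divisible by `s ^ n`, `n` the number of the gamma factors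
with a pole at `0` -/
theorem LI_ord {𝔪 : Ideal (𝓞 K)} {e : InfinitePlace K → ℕ} {η : Ideal (𝓞 K) →*₀ ℂ}
    (h : IsModChar 𝔪 e η) :
    ∃ g : ℂ → ℂ, Differentiable ℂ g ∧ ∀ s : ℂ, 1 < s.re →
      s ^ (Finset.univ.filter fun φ : K →+* ℂ => ex e φ = 0).card * g s = (s - 1) * LI η s := by
  obtain ⟨C, hC, hmel⟩ := mellin_Ftot K
  obtain ⟨V, hV0, hV⟩ := fam_weak K
  have hN : ∀ c, Nice e (Ps η e (rp K c)) := fun c => nice h (rp_ne_bot c)
  obtain ⟨P, hPf, hPg, hk, hε, hf0, hg0⟩ := hV (rp K) reps_rp e h.sig_le h.cpx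
    (fun c => Ps η e (rp K c)) 1 (fun c => ((t_per K 𝔪 e η h).2.2 _ (rp_ne_bot c)).2.2.1)
    (fun c => (hN c).unit) (mm (rp K) 𝔪) (Dd K)
    (mm_pos rp_ne_bot h.ne_bot) Dd_pos Dd_mem (fun c => per_m h (rp_ne_bot c) (mm_mem _ _ c))
  have hf0' : P.f₀ = 0 := by
    rw [hf0, Finset.sum_eq_zero fun c _ => (hN c).zero, mul_zero]
  have hFF : P.f = Ftot η e (rp K) := hPf
  set κ : ℂ := P.ε with hκ
  set g0c : ℂ := P.g₀ with hg0c
  have hH : ∀ s : ℂ, 1 < s.re → (s - 1) * P.Λ₀ s + κ * g0c =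
      (s - 1) * mellin (Ftot η e (rp K)) s := by
    intro s hs
    have h1 := P.hasMellin (s := s) (by rw [hk]; exact hs)
    have h2 : mellin (Ftot η e (rp K)) s = P.Λ s := by
      rw [← h1.2, hFF, hf0']
      simp only [sub_zero]
    have h3 : s - 1 ≠ 0 := by
      intro h
      have : s = 1 := by linear_combination h
      rw [this] at hs
      simp at hs
    have h4 : (1 : ℂ) - s ≠ 0 := by
      intro h
      apply h3
      linear_combination -h
    rw [h2, P.Λ₀_eq s, hk, hf0', ← hκ, ← hg0c]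
    simp only [smul_eq_mul, ofReal_one]
    field_simp
    ring
  obtain ⟨q, hq, hqs⟩ := gam_factor
  set Z : Finset (K →+* ℂ) := Finset.univ.filter fun φ : K →+* ℂ => ex e φ = 0 with hZ
  have hprod : ∀ s : ℂ, ∏ φ : K →+* ℂ, (Complex.Gammaℝ (s + ex e φ))⁻¹ =
      s ^ Z.card * (q s ^ Z.card * ∏ φ ∈ Zᶜ, (Complex.Gammaℝ (s + ex e φ))⁻¹) := by
    intro s
    rw [← Finset.prod_mul_prod_compl Z]
    have h1 : ∏ φ ∈ Z, (Complex.Gammaℝ (s + ex e φ))⁻¹ = ∏ φ ∈ Z, (s * q s) := by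
      refine Finset.prod_congr rfl fun φ hφ => ?_
      have h2 : ex e φ = 0 := (Finset.mem_filter.1 hφ).2
      rw [h2, Nat.cast_zero, add_zero, hqs]
    rw [h1, Finset.prod_const, mul_pow]
    ring
  refine ⟨fun s => (C : ℂ)⁻¹ * (((s - 1) * P.Λ₀ s + κ * g0c) *
      (q s ^ Z.card * ∏ φ ∈ Zᶜ, (Complex.Gammaℝ (s + ex e φ))⁻¹)), ?_, fun s hs => ?_⟩
  · refine Differentiable.const_mul (Differentiable.mul ?_ (Differentiable.mul (hq.pow _) ?_)) _
    · exact ((differentiable_id.sub_const 1).mul P.differentiable_Λ₀).add_const _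
    · refine Differentiable.fun_finsetProd fun w _ => ?_
      exact Complex.differentiable_Gammaℝ_inv.comp (differentiable_id.add_const _)
  · have h5 : s ^ Z.card * ((C : ℂ)⁻¹ * (((s - 1) * P.Λ₀ s + κ * g0c) *
        (q s ^ Z.card * ∏ φ ∈ Zᶜ, (Complex.Gammaℝ (s + ex e φ))⁻¹))) =
        (C : ℂ)⁻¹ * (((s - 1) * P.Λ₀ s + κ * g0c) *
          ∏ φ : K →+* ℂ, (Complex.Gammaℝ (s + ex e φ))⁻¹) := by
      rw [hprod s]
      ring
    rw [h5, hH s hs, (hmel (rp K) reps_rp e η (t_per K 𝔪 e η h).1 hN s hs).2,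
      Finset.prod_inv_distrib]
    have h3 := Pool.Agent.Y772.G.gam_ne_zero e (K := K) (s := s) (by linarith)
    have hC' : (C : ℂ) ≠ 0 := by exact_mod_cast hC.ne'
    field_simp

/-- the archimedean places which are complex or real and outside of `P` -/
def Spl (P : Set (K →+* ℝ)) : Set (InfinitePlace K) :=
  {w | w.IsComplex ∨ ∃ σ : K →+* ℝ, σ ∉ P ∧ InfinitePlace.mk (Complex.ofRealHom.comp σ) = w}

/-- the number of these places -/
noncomputable def rk (P : Set (K →+* ℝ)) : ℕ := (Spl P).ncard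

lemma ex_spl {𝔣 : Ideal (𝓞 K)} {P : Set (K →+* ℝ)} {χ : Ideal (𝓞 K) →*₀ ℂ}
    (hχ : IsRayChar 𝔣 P χ) {e : InfinitePlace K → ℕ} (he : IsModChar 𝔣 e χ)
    {w : InfinitePlace K} (hw : w ∈ Spl P) : ex e w.embedding = 0 := by
  rcases hw with hw | ⟨σ, hσ, rfl⟩
  · exact ex_complex hw
  · -- the place of `σ`
    classical
    obtain ⟨w, hw, hwσ⟩ := exists_rl σ
    have h1 : w = InfinitePlace.mk (Complex.ofRealHom.comp σ) := by
      rw [← InfinitePlace.mk_embedding w]
      congr 1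
      ext x
      rw [← InfinitePlace.embedding_of_isReal_apply hw, ← rl_real hw, hwσ]
      rfl
    rw [← h1]
    obtain ⟨x, hx0, hx1, hx2, hx3⟩ := exists_neg he.ne_bot w
    have hP : PPos P x := by
      intro τ hτ
      obtain ⟨w', hw', hwτ⟩ := exists_rl τ
      rw [← hwτ]
      refine hx3 w' fun _ hc => ?_
      subst hc
      apply hσ
      have : σ = τ := by
        ext z
        rw [← hwσ, ← hwτ]
      rw [this]
      exact hτ
    have h1 := hχ.2 x hx1 hP
    rw [he.sig x hx0 hx1] at h1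
    unfold sg at h1
    rw [Finset.prod_eq_single w] at h1
    · rw [sign_neg (hx2 hw)] at h1
      have h2 := he.sig_le w
      have h3 : e w = 0 := by
        by_contra h4
        have h5 : e w = 1 := by omega
        rw [h5] at h1
        norm_num at h1
      unfold ex
      rw [InfinitePlace.mk_embedding, if_pos hw, h3]
    · intro w' _ hne
      rw [sign_pos (hx3 w' fun _ => hne)]
      simp
    · intro h
      exact absurd (Finset.mem_univ w) h

open Classical in
lemma rk_le {𝔣 : Ideal (𝓞 K)} {P : Set (K →+* ℝ)} {χ : Ideal (𝓞 K) →*₀ ℂ}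
    (hχ : IsRayChar 𝔣 P χ) {e : InfinitePlace K → ℕ} (he : IsModChar 𝔣 e χ) :
    rk P ≤ (Finset.univ.filter fun φ : K →+* ℂ => ex e φ = 0).card := by
  unfold rk
  have h1 : (fun w : InfinitePlace K => w.embedding) '' Spl P ⊆
      ((Finset.univ.filter fun φ : K →+* ℂ => ex e φ = 0 : Finset (K →+* ℂ)) : Set (K →+* ℂ)) := by
    rintro _ ⟨w, hw, rfl⟩
    exact Finset.mem_coe.2 (Finset.mem_filter.2 ⟨Finset.mem_univ _, ex_spl hχ he hw⟩)
  have hinj : Function.Injective (fun w : InfinitePlace K => w.embedding) :=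
    fun a b hab => InfinitePlace.embedding_injective K hab
  have h2 := Set.ncard_le_ncard h1 (Finset.finite_toSet _)
  rwa [Set.ncard_image_of_injective _ hinj, Set.ncard_coe_finset] at h2

/-- **the law for a character, order `rk P`** -/
theorem law_ord {P : Set (K →+* ℝ)} {𝔣 : Ideal (𝓞 K)} (hbot : 𝔣 ≠ ⊥) (htop : 𝔣 ≠ ⊤)
    {χ : Ideal (𝓞 K) →*₀ ℂ} (hχ : IsRayChar 𝔣 P χ) :
    ∃ (Φ g : ℂ → ℂ), (∀ s : ℂ, s ≠ 1 → AnalyticAt ℂ Φ s) ∧ (∀ s : ℂ, MeromorphicAt Φ s) ∧
      (∀ s : ℂ, 1 < s.re → Φ s = LI χ s) ∧ AnalyticAt ℂ g 0 ∧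
      (∀ s : ℂ, Φ s = s ^ rk P * g s) ∧
      ∀ γ : ℝ, Real.pi / 2 < γ →
        (fun T : ℝ => (T : ℂ) ^ rk P * exp (-(rk P * Pool.Agent.W187.UR.Lam γ)) *
          exp (SX χ γ T) - g 0) =O[atTop] fun T : ℝ => 1 / T := by
  classical
  obtain ⟨e, he⟩ := exists_modChar hbot htop hχ
  obtain ⟨G, hG, hGs⟩ := LI_ord he
  set n := (Finset.univ.filter fun φ : K →+* ℂ => ex e φ = 0).card with hn
  have hrk : rk P ≤ n := rk_le hχ he
  have hle := norm_char_le P hbot htop hχ
  have han : ∀ s : ℂ, AnalyticAt ℂ (fun z => z ^ n * G z) s := fun s =>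
    ((analyticAt_id.pow n).mul (hG.analyticAt s))
  have hmer : ∀ s : ℂ, MeromorphicAt (fun z => z ^ n * G z / (z - 1)) s := fun s =>
    (han s).meromorphicAt.div ((analyticAt_id.sub analyticAt_const).meromorphicAt)
  have hne : ∀ s : ℂ, 1 < s.re → s - 1 ≠ 0 := by
    intro s hs
    refine sub_ne_zero_of_ne ?_
    rintro rfl
    simp at hs
  have hg : AnalyticAt ℂ (fun z => z ^ (n - rk P) * G z / (z - 1)) 0 :=
    ((analyticAt_id.pow _).mul (hG.analyticAt 0)).div
      (analyticAt_id.sub analyticAt_const) (by norm_num)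
  have hΦ : ∀ s : ℂ, s ^ n * G s / (s - 1) = s ^ rk P * (s ^ (n - rk P) * G s / (s - 1)) := by
    intro s
    have h1 : s ^ n = s ^ rk P * s ^ (n - rk P) := by
      rw [← pow_add]
      congr 1
      omega
    rw [h1]
    ring
  refine ⟨fun z => z ^ n * G z / (z - 1), fun z => z ^ (n - rk P) * G z / (z - 1),
    fun s hs => ?_, hmer, fun s hs => ?_, hg, hΦ, fun γ hγ => ?_⟩
  · exact (han s).div (analyticAt_id.sub analyticAt_const) (sub_ne_zero_of_ne hs)
  · show s ^ n * G s / (s - 1) = LI χ s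
    rw [hGs s hs, mul_div_cancel_left₀ _ (hne s hs)]
  · obtain ⟨m, r, C, T₀, hm, hr, h⟩ := Pool.Agent.Run7.h453.CX.gen_law (lam := lg (K := K))
      (c := Pool.Agent.Y772.DK.ee χ)
      (Φ := fun z => z ^ n * G z / (z - 1)) (A := 1) one_pos lg_nonneg
      (fun σ hσ => ee_summable hle hσ) (fun x _ => hmer _) (fun w hw => by
        rw [hGs w hw, mul_div_cancel_left₀ _ (hne w hw), Pool.Agent.Y772.DK.LI_eq_exp χ hle hw,
          LA_eq_cser]) hγ
    exact coef_of_law hg (Filter.Eventually.of_forall hΦ) hm hr h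

end Pool.Agent.Run7.h767.ST
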